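import Pool.Agent.K3h48.AS.Hull

set_option autoImplicit false

/-!
# MP_eba1ef_gt: approximate summands; limits of Minkowski sums of planar sets

For a compact convex set `X` let `c(X)` be the least number of translates of the relative interior
of `X` that cover `X`.  A compact convex set `T` is an *approximate summand* of a convex body `K` in
`ℝ^n` if for every `ε > 0` there is a decomposition `K = A + B` such that `A` has Hausdorff distance
at most `ε μ` from `μ T`, for some `μ > 0` (which may tend to zero with `ε`); so a zonoid has as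
approximate summands all the segments of its generating measure, although it need not have any
lower-dimensional summand.  It is proved:

1. `c(K) ≤ c(T) c(Q)` if `T` is an approximate summand of `K` and `Q` is the image of `K` under a
   linear map onto `ℝ^m` with kernel the span of `T - T`.
2. Let `G` be a class of compact convex sets (in all dimensions) which is closed under affine maps
   and under limits, such that the convex bodies of `G` satisfy the conjecture, and let the
   conjecture be true in the dimensions up to `j`.  Then the conjecture is true, in every dimension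
   `n`, for all convex bodies `K = A + C` such that `A` is a limit of finite Minkowski sums of sets
   of `G`, `dim A ≥ n - j` and `C` is arbitrary.
3. If the conjecture is true in the dimensions up to `k` then this applies, with `j = k`, to the
   class of the convex hulls of sets `F_1, ..., F_r` of dimensions `d_i ≤ k` with
   `∑ 2^{d_i} ≤ 2^{k+1}`; in particular to all limits of Minkowski sums of sets of dimension at
   most `k`.  In particular (`k = n - 1`) a counterexample of least dimension has no nontrivial
   Minkowski summand which is a limit of sums of lower-dimensional sets, for instance no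
   zonoid as a summand.
4. Unconditionally (`k = 2`): `c(K) ≤ 2^n` for every convex body `K = A + C` in `ℝ^n` such that
   `dim A ≥ n - 2` and `A` is a limit of finite Minkowski sums of planar sets, of polytopes with at
   most eight vertices, and more generally of convex hulls of sets `F_i` of dimensions `d_i ≤ 2` with
   `∑ 2^{d_i} ≤ 8` (for example of two planar sets).  For segments this contains the zonoids.

Proof.  (1) Let the directions `w` illuminate `T` in its span and let the directions `v` illuminate
`Q`.  From a point `X` of `K` some `v` leads, after a fixed time, to the image of a point `Y` of `K`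
which is the centre of a ball of a fixed radius in `K`; the vector `Y - X` differs from a lift of `v`
by a bounded vector `z` of the span of `T - T`.  In the summand `A` close to `μ T` one can move by a
multiple of `μ` times `R w - z`, for a fixed large `R`, up to an error `ε μ`, and if `ε` is
small this error is absorbed by the ball around `Y`.  So the directions `v + R w` illuminate `K`.
(2) The normalised sets of `G` (in the unit ball, containing `0` and a unit vector) form a compact
space.  If no such set was an approximate summand of `A`, then by compactness there would be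
finitely many sets `T_c` and precisions `ε_c` such that `A` has no decomposition of precision `ε_c`
with respect to `T_c`, and the `ε_c / 2`-neighbourhoods cover the space.  In the sums that converge
to `A` one of the finitely many classes has a positive proportion of the total size; passing to the
limit one gets a decomposition of `A`, a contradiction.  Now project along the span of the
approximate summand and use induction.
-/

namespace Pool.Agent.Results.MP_eba1ef_gt.ApproximateSummands

open scoped Pointwise
open Pool.Agent.W677.Summand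

/-- The Euclidean space `ℝ^d`. -/
abbrev Eu (d : ℕ) : Type := EuclideanSpace ℝ (Fin d)

/-- `K` is a convex body: convex, compact, with nonempty interior. -/
def IsConvexBody {d : ℕ} (K : Set (Eu d)) : Prop :=
  Convex ℝ K ∧ IsCompact K ∧ (interior K).Nonempty

/-- `K` is covered by at most `N` translates of its interior. -/
def CoveredBy {d : ℕ} (K : Set (Eu d)) (N : ℕ) : Prop :=
  ∃ T : Finset (Eu d), T.card ≤ N ∧ K ⊆ ⋃ t ∈ T, (fun x => t + x) '' interior K

/-- `A` is covered by at most `N` translates of its relative interior. -/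
def RelCoveredBy {d : ℕ} (A : Set (Eu d)) (N : ℕ) : Prop :=
  ∃ T : Finset (Eu d), T.card ≤ N ∧ A ⊆ ⋃ t ∈ T, (fun x => t + x) '' intrinsicInterior ℝ A

/-- The dimension of (the affine hull of) `A`. -/
noncomputable def dim {d : ℕ} (A : Set (Eu d)) : ℕ := Module.finrank ℝ (vectorSpan ℝ A)

/-- `π` is linear and onto, and its kernel is the linear span of `A - A`. -/
def IsQuotientMap {d m : ℕ} (A : Set (Eu d)) (π : Eu d → Eu m) : Prop :=
  IsLinearMap ℝ π ∧ Function.Surjective π ∧ ∀ x, π x = 0 ↔ x ∈ vectorSpan ℝ A

/-- `T` is an approximate summand of `K`. -/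
def IsApproximateSummand {d : ℕ} (T K : Set (Eu d)) : Prop :=
  ∀ ε : ℝ, 0 < ε → ∃ μ : ℝ, 0 < μ ∧ ∃ A B : Set (Eu d), A.Nonempty ∧ IsCompact A ∧ K = A + B ∧
    Metric.hausdorffDist A (μ • T) ≤ ε * μ

/-- The covering conjecture in the dimensions up to `k`. -/
def ConjectureUpTo (k : ℕ) : Prop :=
  ∀ d ≤ k, ∀ K : Set (Eu d), IsConvexBody K → CoveredBy K (2 ^ d)

/-- A nonempty compact convex set. -/
def IsConvexCompact {d : ℕ} (T : Set (Eu d)) : Prop :=
  Convex ℝ T ∧ IsCompact T ∧ T.Nonempty

/-- `A` is a limit, in the Hausdorff metric, of finite Minkowski sums of nonempty compact convex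
sets of the class `g`. -/
def IsLimitOfSums {d : ℕ} (g : Set (Eu d) → Prop) (A : Set (Eu d)) : Prop :=
  ∀ ε : ℝ, 0 < ε → ∃ (m : ℕ) (T : Fin m → Set (Eu d)), (∀ i, IsConvexCompact (T i) ∧ g (T i)) ∧
    Metric.hausdorffDist A (∑ i, T i) < ε

/-- The class `G` (of sets in all dimensions) is invariant under affine maps. -/
def AffineInvariant (G : ∀ n : ℕ, Set (Eu n) → Prop) : Prop :=
  ∀ (n m : ℕ) (f : Eu n →ᵃ[ℝ] Eu m) (T : Set (Eu n)), G n T → G m (f '' T)

/-- The class `G` contains the compact limits of its nonempty compact convex sets. -/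
def ClosedUnderLimits (G : ∀ n : ℕ, Set (Eu n) → Prop) : Prop :=
  ∀ (n : ℕ) (T : Set (Eu n)), IsCompact T → T.Nonempty → (∀ δ : ℝ, 0 < δ →
    ∃ S : Set (Eu n), IsConvexCompact S ∧ G n S ∧ Metric.hausdorffDist S T < δ) → G n T

/-- `T` is the convex hull of nonempty compact convex sets `F_i` of dimensions `d_i ≤ k` with
`∑ 2 ^ d_i ≤ 2 ^ (k + 1)`.  (The number of the sets is arbitrary; every nonempty compact convex set
of dimension at most `k` belongs to this class, and every polytope with at most `2 ^ (k + 1)`
vertices.) -/
def IsSmallHull (k n : ℕ) (T : Set (Eu n)) : Prop :=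
  ∃ (r : ℕ) (F : Fin r → Set (Eu n)), (∀ i, IsConvexCompact (F i) ∧ dim (F i) ≤ k) ∧
    ∑ i, 2 ^ dim (F i) ≤ 2 ^ (k + 1) ∧ T = convexHull ℝ (⋃ i, F i)

theorem isSmallHull_iff (k n : ℕ) (T : Set (Eu n)) :
    IsSmallHull k n T ↔ Pool.Agent.K3h48.AS.HullCls k n T := by
  constructor
  · rintro ⟨r, F, hF, h1, h2⟩
    exact ⟨r, F, fun i => ⟨(hF i).1.1, (hF i).1.2.1, (hF i).1.2.2, (hF i).2⟩, h1, h2⟩
  · rintro ⟨r, F, hF, h1, h2⟩
    exact ⟨r, F, fun i => ⟨⟨(hF i).1, (hF i).2.1, (hF i).2.2.1⟩, (hF i).2.2.2⟩, h1, h2⟩

theorem limit_iff {d : ℕ} {g g' : Set (Eu d) → Prop} (h : ∀ T, g T → g' T) {A : Set (Eu d)}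
    (hA : IsLimitOfSums g A) : Pool.Agent.K3h48.AS.IsLimitOfSums g' A := by
  intro ε hε
  obtain ⟨m, T, hT, hd⟩ := hA ε hε
  exact ⟨_, ⟨m, T, fun i => ⟨(hT i).1.1, (hT i).1.2.1, (hT i).1.2.2, h _ (hT i).2⟩, rfl⟩, hd⟩

theorem approx (n : ℕ) (K T : Set (Eu n)) (hK : IsConvexBody K) (hT : IsConvexCompact T)
    (happ : IsApproximateSummand T K) (m : ℕ) (π : Eu n → Eu m) (N M : ℕ)
    (hπ : IsQuotientMap T π) (hN : RelCoveredBy T N) (hM : CoveredBy (π '' K) M) :
    CoveredBy K (N * M) := by
  obtain ⟨t₀, ht₀⟩ := hT.2.2
  obtain ⟨ι, hι⟩ := coords (vectorSpan ℝ T) (k := dim T) rfl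
  obtain ⟨hlin, hsurj, hk⟩ := hπ
  exact Pool.Agent.K3h48.AS.approx_bound hK hT.1 hT.2.1 ht₀ happ ι hι
    (LinearMap.toContinuousLinearMap (hlin.mk' π)) hsurj (fun y hy => (hk y).1 hy) N M
    (cov_of_rel hι ht₀ hN) hM

theorem general {G : ∀ n : ℕ, Set (Eu n) → Prop} (hG : AffineInvariant G)
    (hGc : ClosedUnderLimits G)
    (hcov : ∀ (t : ℕ) (L : Set (Eu t)), G t L → IsConvexBody L → CoveredBy L (2 ^ t)) {j : ℕ}
    (hconj : ConjectureUpTo j) (n : ℕ) (K A C : Set (Eu n)) (hK : IsConvexBody K)
    (hA : IsConvexCompact A) (hKAC : K = A + C) (hlim : IsLimitOfSums (G n) A)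
    (hdim : n ≤ dim A + j) : CoveredBy K (2 ^ n) := by
  refine Pool.Agent.K3h48.AS.main (G := G) hG (fun n T hT hTn h => ?_) hcov hconj n K A C hK hA.1
    hA.2.1 hKAC (limit_iff (fun _ h => h) hlim) hdim
  refine hGc n T hT hTn fun δ hδ => ?_
  obtain ⟨S, h1, h2, h3, h4, h5⟩ := h δ hδ
  exact ⟨S, ⟨h1, h2, h3⟩, h4, h5⟩

theorem hulls {k : ℕ} (hconj : ConjectureUpTo k) (n : ℕ) (K A C : Set (Eu n))
    (hK : IsConvexBody K) (hA : IsConvexCompact A) (hKAC : K = A + C)
    (hlim : IsLimitOfSums (IsSmallHull k n) A) (hdim : n ≤ dim A + k) : CoveredBy K (2 ^ n) :=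
  Pool.Agent.K3h48.AS.main (G := Pool.Agent.K3h48.AS.HullCls k) (Pool.Agent.K3h48.AS.hull_aff k)
    (Pool.Agent.K3h48.AS.hull_closed k) (Pool.Agent.K3h48.AS.hull_cov hconj) hconj n K A C hK hA.1
    hA.2.1 hKAC (limit_iff (fun T h => (isSmallHull_iff k n T).1 h) hlim) hdim

/-- **Main theorem.**
1. If the nonempty compact convex set `T` is an approximate summand of the convex body `K`, `T` is
covered by `N` translates of its relative interior and the image of `K` modulo the span of `T - T`
by `M` translates of its interior, then `K` is covered by `N M` translates of its interior.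
2. Let `G` be a class of sets in all dimensions, invariant under affine maps and closed under limits,
and let all convex bodies `L ∈ G` in `ℝ^t` be covered by `2 ^ t` translates of their interiors, for
all `t`.  If the conjecture is true in the dimensions up to `j` then every convex body `K = A + C` in
`ℝ^n` is covered by `2 ^ n` translates of its interior if `A` is a limit of finite Minkowski sums of
sets of `G` and `dim A ≥ n - j`.
3. If the conjecture is true in the dimensions up to `k`, then every convex body `K = A + C` in `ℝ^n`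
is covered by `2 ^ n` translates of its interior if `dim A ≥ n - k` and `A` is a limit of finite
Minkowski sums of convex hulls of sets `F_i` of dimensions `d_i ≤ k` with
`∑ 2 ^ d_i ≤ 2 ^ (k + 1)`.
4. Every convex body `K = A + C` in `ℝ^n` is covered by `2 ^ n` translates of its interior if
`dim A ≥ n - 2` and `A` is a limit of finite Minkowski sums of convex hulls of sets `F_i` of
dimensions `d_i ≤ 2` with `∑ 2 ^ d_i ≤ 8`. -/
theorem result :
    (∀ (n : ℕ) (K T : Set (Eu n)), IsConvexBody K → IsConvexCompact T → IsApproximateSummand T K →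
      ∀ (m : ℕ) (π : Eu n → Eu m) (N M : ℕ), IsQuotientMap T π → RelCoveredBy T N →
        CoveredBy (π '' K) M → CoveredBy K (N * M)) ∧
    (∀ G : ∀ n : ℕ, Set (Eu n) → Prop, AffineInvariant G → ClosedUnderLimits G →
      (∀ (t : ℕ) (L : Set (Eu t)), G t L → IsConvexBody L → CoveredBy L (2 ^ t)) →
      ∀ j : ℕ, ConjectureUpTo j → ∀ (n : ℕ) (K A C : Set (Eu n)), IsConvexBody K →
        IsConvexCompact A → K = A + C → IsLimitOfSums (G n) A → n ≤ dim A + j →
        CoveredBy K (2 ^ n)) ∧
    (∀ k : ℕ, ConjectureUpTo k → ∀ (n : ℕ) (K A C : Set (Eu n)), IsConvexBody K →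
      IsConvexCompact A → K = A + C → IsLimitOfSums (IsSmallHull k n) A → n ≤ dim A + k →
      CoveredBy K (2 ^ n)) ∧
    (∀ (n : ℕ) (K A C : Set (Eu n)), IsConvexBody K → IsConvexCompact A → K = A + C →
      IsLimitOfSums (IsSmallHull 2 n) A → n ≤ dim A + 2 → CoveredBy K (2 ^ n)) := by
  refine ⟨approx, fun G h1 h2 h3 j h4 => general h1 h2 h3 h4, fun k hk => hulls hk, ?_⟩
  exact hulls (k := 2) fun d hd K hK => body_le_two hd hK

end Pool.Agent.Results.MP_eba1ef_gt.ApproximateSummands
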