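import Pool.Agent.W677.Summand3

set_option autoImplicit false
set_option linter.unusedSectionVars false

/-!
Illumination of convex bodies with an approximate (infinitesimal) lower-dimensional summand.
-/

open Set Topology
open scoped Pointwise
open Pool.Agent.H843R3.Had2 Pool.Agent.W677.Shadow Pool.Agent.W677.Summand

namespace Pool.Agent.K3h48.AS

variable {E F U : Type*} [NormedAddCommGroup E] [NormedSpace ℝ E] [NormedAddCommGroup F]
  [NormedSpace ℝ F] [NormedAddCommGroup U] [NormedSpace ℝ U]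

/-- Uniformly interior lifts. -/
theorem unif_lift {K : Set E} (hK : Convex ℝ K) (hKc : IsCompact K) {p₀ : E}
    (hp₀ : p₀ ∈ interior K) (π : E →L[ℝ] F) (A : Finset F)
    (hA : ∀ x ∈ π '' K, ∃ v ∈ A, Co (π '' K) x v) :
    ∃ r : ℝ, 0 < r ∧ ∃ δ : ℝ, 0 < δ ∧ ∀ X ∈ K, ∃ v ∈ A, ∃ Y : E, π Y = π X + r • v ∧
      ∀ z, ‖z‖ ≤ δ → Y + z ∈ K := by
  classical
  have hQ : Convex ℝ (π '' K) := hK.linear_image π.toLinearMap
  have hQc : IsCompact (π '' K) := hKc.image π.continuous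
  obtain ⟨r, hr, hr1⟩ := unif hQ hQc subset_rfl (fun v : A => (v : F)) (by
    intro x hx
    obtain ⟨v, hv, h1⟩ := hA x hx
    exact ⟨⟨v, hv⟩, h1⟩)
  obtain ⟨ρ, hρ, hρ1⟩ := depth hQc A r (fun y hy => by
    obtain ⟨w, hw⟩ := hr1 y hy
    exact ⟨w, w.2, hw⟩)
  obtain ⟨C, hC⟩ := hQc.isBounded.exists_norm_le
  obtain ⟨M, hM0, hM⟩ : ∃ M : ℝ, 0 ≤ M ∧ ∀ v ∈ A, ‖v‖ ≤ M := by
    refine ⟨∑ v ∈ A, ‖v‖, Finset.sum_nonneg fun _ _ => norm_nonneg _, fun v hv => ?_⟩
    exact Finset.single_le_sum (f := fun v => ‖v‖) (fun _ _ => norm_nonneg _) hv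
  have hC0 : 0 ≤ C := (norm_nonneg _).trans (hC _ ⟨p₀, interior_subset hp₀, rfl⟩)
  obtain ⟨R0, hR0, hb⟩ := Metric.isOpen_iff.1 isOpen_interior _ hp₀
  -- the bound for `x + r v - π p₀`
  set D : ℝ := 2 * C + r * M + 1 with hD
  have hD0 : 0 < D := by positivity
  -- parameter
  set t : ℝ := ρ / (D + ρ) with ht
  have ht0 : 0 < t := by positivity
  have ht1 : 1 - t = D / (D + ρ) := by rw [ht]; field_simp; ring
  have ht1' : 0 < 1 - t := by rw [ht1]; positivity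
  have htt : t / (1 - t) = ρ / D := by rw [ht1, ht]; field_simp
  refine ⟨r, hr, t * (R0 / 2), by positivity, fun X hX => ?_⟩
  obtain ⟨v, hv, hv1⟩ := hρ1 (π X) ⟨X, hX, rfl⟩
  have hz : ‖(t / (1 - t)) • (π X + r • v - π p₀)‖ ≤ ρ := by
    rw [norm_smul, htt, Real.norm_eq_abs, abs_of_pos (by positivity), div_mul_eq_mul_div,
      div_le_iff₀ hD0]
    refine mul_le_mul_of_nonneg_left ?_ hρ.le
    have h1 := norm_sub_le (π X + r • v) (π p₀)
    have h2 := norm_add_le (π X) (r • v)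
    have h3 := hC _ ⟨X, hX, rfl⟩
    have h4 := hC _ ⟨p₀, interior_subset hp₀, rfl⟩
    have h5 : ‖r • v‖ ≤ r * M := by
      rw [norm_smul, Real.norm_eq_abs, abs_of_pos hr]
      exact mul_le_mul_of_nonneg_left (hM v hv) hr.le
    linarith
  obtain ⟨Y', hY', hY1⟩ := hv1 _ hz
  refine ⟨v, hv, (1 - t) • Y' + t • p₀, ?_, ?_⟩
  · rw [map_add, map_smul, map_smul, hY1, smul_add, smul_smul, mul_div_cancel₀ _ ht1'.ne']
    module
  · intro z hz
    have h1 : (1 - t) • Y' + t • p₀ + z = (1 - t) • Y' + t • (p₀ + (1 / t) • z) := by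
      rw [smul_add, smul_smul, mul_one_div_cancel ht0.ne', one_smul, add_assoc]
    rw [h1]
    refine hK hY' (interior_subset (hb ?_)) ht1'.le ht0.le (by ring)
    rw [Metric.mem_ball, dist_eq_norm, add_sub_cancel_left, norm_smul, Real.norm_eq_abs,
      abs_of_pos (by positivity), one_div, inv_mul_lt_iff₀ ht0]
    have : t * (R0 / 2) < t * R0 := by
      apply mul_lt_mul_of_pos_left _ ht0
      linarith
    exact lt_of_le_of_lt hz this

/-- **The core.** -/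
theorem core {K : Set E} {L : Set U} (hK : Convex ℝ K) (hKc : IsCompact K) {p₀ : E}
    (hp₀ : p₀ ∈ interior K) (hL : Convex ℝ L) (hLc : IsCompact L) (ι : U →ₗᵢ[ℝ] E)
    (happ : ∀ ε : ℝ, 0 < ε → ∃ μ : ℝ, 0 < μ ∧ ∃ A B : Set E,
      (∀ X, X ∈ K ↔ ∃ a ∈ A, ∃ b ∈ B, X = a + b) ∧
      (∀ a ∈ A, ∃ y ∈ L, ‖a - μ • ι y‖ ≤ ε * μ) ∧ (∀ y ∈ L, ∃ a ∈ A, ‖a - μ • ι y‖ ≤ ε * μ))
    (π : E →L[ℝ] F) (s : F → E) (hs : ∀ v, π (s v) = v)
    (he : ∀ y, π y = 0 → ∃ z : U, y = ι z)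
    (W : Finset U) (hW : ∀ y ∈ L, ∃ w ∈ W, Co L y w) (A : Finset F)
    (hA : ∀ x ∈ π '' K, ∃ v ∈ A, Co (π '' K) x v) :
    ∃ R : ℝ, ∀ X ∈ K, ∃ w ∈ W, ∃ v ∈ A, Co K X (s v + R • ι w) := by
  classical
  obtain ⟨C, hC⟩ := hKc.isBounded.exists_norm_le
  obtain ⟨r, hr, δ, hδ, hlift⟩ := unif_lift hK hKc hp₀ π A hA
  obtain ⟨q, hq, hq1⟩ := unif hL hLc subset_rfl (fun w : W => (w : U)) (by
    intro x hx
    obtain ⟨v, hv, h1⟩ := hW x hx
    exact ⟨⟨v, hv⟩, h1⟩)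
  obtain ⟨ρ, hρ, hρ1⟩ := depth hLc W q (fun y hy => by
    obtain ⟨w, hw⟩ := hq1 y hy
    exact ⟨w, w.2, hw⟩)
  obtain ⟨M, hM0, hM⟩ : ∃ M : ℝ, 0 ≤ M ∧ ∀ v ∈ A, ‖s v‖ ≤ M := by
    refine ⟨∑ v ∈ A, ‖s v‖, Finset.sum_nonneg fun _ _ => norm_nonneg _, fun v hv => ?_⟩
    exact Finset.single_le_sum (f := fun v => ‖s v‖) (fun _ _ => norm_nonneg _) hv
  have hC0 : 0 ≤ C := (norm_nonneg _).trans (hC p₀ (interior_subset hp₀))
  set D : ℝ := 2 * C + r * M + 1 with hD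
  have hD0 : 0 < D := by positivity
  set R : ℝ := q * D / (r * ρ) with hR
  have hR0 : 0 < R := by positivity
  -- the accuracy
  set ε : ℝ := δ * q / (4 * (r * R)) with hε
  have hε0 : 0 < ε := by positivity
  obtain ⟨μ, hμ, A', B', hsum, hap1, hap2⟩ := happ ε hε0
  refine ⟨R, fun X hX => ?_⟩
  obtain ⟨a, ha, b, hb, hXab⟩ := (hsum X).1 hX
  obtain ⟨y, hy, hay⟩ := hap1 a ha
  obtain ⟨w, hw, hw1⟩ := hρ1 y hy
  obtain ⟨v, hv, Y, hY1, hYb⟩ := hlift X hX
  refine ⟨w, hw, v, hv, ?_⟩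
  have hYK : Y ∈ K := by simpa using hYb 0 (by simpa using hδ.le)
  obtain ⟨z, hz⟩ := he (Y - X - r • s v) (by
    rw [map_sub, map_sub, map_smul, hs, hY1]
    abel)
  have hYX : Y - X = r • s v + ι z := by rw [← hz]; abel
  have hzD : ‖z‖ ≤ D := by
    rw [← ι.norm_map z, ← hz]
    have h2 := norm_sub_le (Y - X) (r • s v)
    have h3 := norm_sub_le Y X
    have h4 := hC Y hYK
    have h5 := hC X hX
    have h6 : ‖r • s (v : F)‖ ≤ r * M := by
      rw [norm_smul, Real.norm_eq_abs, abs_of_pos hr]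
      exact mul_le_mul_of_nonneg_left (hM v hv) hr.le
    linarith
  -- the moved point of `L`
  have hyL : y + q • w + -((q / (r * R)) • z) ∈ L := by
    refine hw1 _ ?_
    rw [norm_neg, norm_smul, Real.norm_eq_abs, abs_of_pos (by positivity)]
    have h1 : q / (r * R) = ρ / D := by
      rw [hR]; field_simp
    rw [h1, div_mul_eq_mul_div, div_le_iff₀ hD0]
    gcongr
  obtain ⟨a', ha', hay'⟩ := hap2 _ hyL
  have hX'K : a' + b ∈ K := (hsum _).2 ⟨a', ha', b, hb, rfl⟩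
  -- the scale of the move
  set κ : ℝ := μ * q / (r * R) with hκ
  have hκ0 : 0 < κ := by positivity
  set e : E := (a' - μ • ι (y + q • w + -((q / (r * R)) • z))) - (a - μ • ι y) with he'
  have hen : ‖e‖ ≤ 2 * ε * μ := by
    have := norm_sub_le (a' - μ • ι (y + q • w + -((q / (r * R)) • z))) (a - μ • ι y)
    rw [← he'] at this
    linarith
  have hmove : a' + b - X = κ • ((r * R) • ι w - ι z) + e := by
    have h1 : μ • ι (y + q • w + -((q / (r * R)) • z)) - μ • ι y =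
        κ • ((r * R) • ι w - ι z) := by
      rw [map_add, map_add, map_neg, map_smul, map_smul, smul_sub, smul_smul, hκ]
      have h2 : μ * q / (r * R) * (r * R) = μ * q := by field_simp
      have h3 : μ * q / (r * R) = μ * (q / (r * R)) := by ring
      rw [h2, h3]
      module
    rw [hXab, he', ← h1]
    abel
  -- the small parameter
  set θ : ℝ := 1 / (1 + 1 / κ) with hθ
  have hθ0 : 0 < θ := by positivity
  have hθ1 : θ * (1 / κ) + θ = 1 := by rw [hθ]; field_simp; ring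
  -- the ball around the new point
  have hball : ∀ u : E, ‖u‖ < θ * (δ / 2) →
      X + (θ * r) • (s v + R • ι w) + u ∈ K := by
    intro u hu
    have h1 : X + (θ * r) • (s v + R • ι w) + u =
        (θ * (1 / κ)) • (a' + b) + θ • (Y + ((1 / θ) • u - (1 / κ) • e)) := by
      have h2 : a' + b = X + (κ • ((r * R) • ι w - ι z) + e) := by rw [← hmove]; abel
      have h3 : Y = X + (r • s v + ι z) := by rw [← hYX]; abel
      rw [h2, h3]
      have h4 : θ * (1 / κ) * κ = θ := by field_simp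
      have h5 : θ * (1 / θ) = 1 := by field_simp
      simp only [smul_add, smul_sub, smul_smul, h4, h5, one_smul]
      have h6 : X = (θ * (1 / κ)) • X + θ • X := by rw [← add_smul, hθ1, one_smul]
      have h7 : (θ * (1 / κ)) • X + θ • X = X := h6.symm
      have h8 : θ * (1 / κ) * (κ * (r * R)) = θ * (r * R) := by field_simp
      have h9 : θ * (1 / κ) * κ = θ := h4
      generalize hT : (θ * (1 / κ)) = τ at *
      have h10 : τ * (κ * (r * R)) = θ * (r * R) := h8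
      rw [show (θ * r * R) = θ * (r * R) by ring]
      nth_rewrite 1 [h6]
      have h11 : τ * κ = θ := h9
      have e1 : (τ * κ * (r * R)) • ι w = (θ * (r * R)) • ι w := by rw [h11]
      first
        | (rw [h10]; module)
        | (rw [e1]; module)
        | module
    rw [h1]
    refine hK hX'K (hYb _ ?_) (by positivity) hθ0.le hθ1
    have h2 := norm_sub_le ((1 / θ) • u) ((1 / κ) • e)
    have h3 : ‖(1 / θ) • u‖ ≤ δ / 2 := by
      rw [norm_smul, Real.norm_eq_abs, abs_of_pos (by positivity), one_div,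
        inv_mul_le_iff₀ hθ0]
      exact hu.le
    have h4 : ‖(1 / κ) • e‖ ≤ δ / 2 := by
      rw [norm_smul, Real.norm_eq_abs, abs_of_pos (by positivity), one_div,
        inv_mul_le_iff₀ hκ0]
      refine hen.trans (le_of_eq ?_)
      rw [hε, hκ]
      field_simp
      ring
    linarith
  refine ⟨θ * r, by positivity, ?_⟩
  rw [mem_interior]
  refine ⟨Metric.ball (X + (θ * r) • (s v + R • ι w)) (θ * (δ / 2)), ?_, Metric.isOpen_ball,
    Metric.mem_ball_self (by positivity)⟩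
  intro p hp
  rw [Metric.mem_ball, dist_eq_norm] at hp
  have := hball _ hp
  rwa [add_sub_cancel] at this

/-- **The bound** `c(K) ≤ c(L) c(Q)`. -/
theorem bound {K : Set E} {L : Set U} (hK : Convex ℝ K) (hKc : IsCompact K)
    (hKi : (interior K).Nonempty) (hL : Convex ℝ L) (hLc : IsCompact L) (ι : U →ₗᵢ[ℝ] E)
    (happ : ∀ ε : ℝ, 0 < ε → ∃ μ : ℝ, 0 < μ ∧ ∃ A B : Set E,
      (∀ X, X ∈ K ↔ ∃ a ∈ A, ∃ b ∈ B, X = a + b) ∧
      (∀ a ∈ A, ∃ y ∈ L, ‖a - μ • ι y‖ ≤ ε * μ) ∧ (∀ y ∈ L, ∃ a ∈ A, ‖a - μ • ι y‖ ≤ ε * μ))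
    (π : E →L[ℝ] F) (s : F → E) (hs : ∀ v, π (s v) = v)
    (he : ∀ y, π y = 0 → ∃ z : U, y = ι z) (N M : ℕ) (hN : Cov L N) (hM : Cov (π '' K) M) :
    Cov K (N * M) := by
  classical
  obtain ⟨p₀, hp₀⟩ := hKi
  obtain ⟨W, hW, hW1⟩ := dirs_of_cover hN
  obtain ⟨A, hA, hA1⟩ := dirs_of_cover hM
  obtain ⟨R, hR⟩ := core hK hKc hp₀ hL hLc ι happ π s hs he W hW1 A hA1
  obtain ⟨T, hT1, hT2⟩ := cover_of_dirs hK hKc
    ((W ×ˢ A).image (fun p => s p.2 + R • ι p.1)) (by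
      intro X hX
      obtain ⟨w, hw, v, hv, h1⟩ := hR X hX
      exact ⟨_, Finset.mem_image_of_mem _ (Finset.mk_mem_product hw hv), h1⟩)
  refine ⟨T, hT1.trans (Finset.card_image_le.trans ?_), hT2⟩
  rw [Finset.card_product]
  exact Nat.mul_le_mul hW hA

end Pool.Agent.K3h48.AS
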