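import Pool.Agent.K3h48.AS.Hyper

set_option autoImplicit false
set_option linter.unusedSectionVars false

/-!
An approximate summand of a limit of Minkowski sums of sets of small dimension.
-/

open Set Topology TopologicalSpace Filter
open scoped Pointwise

namespace Pool.Agent.K3h48.AS

variable {E F : Type*} [NormedAddCommGroup E] [NormedSpace ℝ E] [NormedAddCommGroup F]
  [NormedSpace ℝ F]

/-- `P` is a finite Minkowski sum of nonempty compact convex sets of the class `g`. -/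
def IsSumOf (g : Set E → Prop) (P : Set E) : Prop :=
  ∃ (m : ℕ) (T : Fin m → Set E), (∀ i, Convex ℝ (T i) ∧ IsCompact (T i) ∧ (T i).Nonempty ∧
    g (T i)) ∧ P = ∑ i, T i

/-- `A` is a limit of such sums in the Hausdorff metric. -/
def IsLimitOfSums (g : Set E → Prop) (A : Set E) : Prop :=
  ∀ ε : ℝ, 0 < ε → ∃ P : Set E, IsSumOf g P ∧ Metric.hausdorffDist A P < ε

/-- A decomposition of `A`, one summand of which is similar to `T` up to the precision `ε`. -/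
def Dec (A T : Set E) (ε : ℝ) : Prop :=
  ∃ μ : ℝ, 0 < μ ∧ ∃ A₁ B₁ : Set E, Convex ℝ A₁ ∧ IsCompact A₁ ∧ A₁.Nonempty ∧ Convex ℝ B₁ ∧
    IsCompact B₁ ∧ B₁.Nonempty ∧ A = A₁ + B₁ ∧ Near (ε * μ) A₁ (μ • T)

theorem Dec.mono {A T : Set E} {ε ε' : ℝ} (h : Dec A T ε) (hε : ε ≤ ε') : Dec A T ε' := by
  obtain ⟨μ, hμ, A₁, B₁, h1, h2, h3, h4, h5, h6, h7, h8⟩ := h
  exact ⟨μ, hμ, A₁, B₁, h1, h2, h3, h4, h5, h6, h7,
    h8.mono (mul_le_mul_of_nonneg_right hε hμ.le)⟩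

theorem near_smul {T : Set E} (hT : T ⊆ Metric.closedBall 0 1) (μ ν : ℝ) :
    Near |μ - ν| (μ • T) (ν • T) := by
  constructor
  · rintro _ ⟨x, hx, rfl⟩
    refine ⟨ν • x, Set.smul_mem_smul_set hx, ?_⟩
    have h1 := hT hx
    rw [mem_closedBall_zero_iff] at h1
    show ‖μ • x - ν • x‖ ≤ _
    rw [← sub_smul, norm_smul, Real.norm_eq_abs]
    exact mul_le_of_le_one_right (abs_nonneg _) h1
  · rintro _ ⟨x, hx, rfl⟩
    refine ⟨μ • x, Set.smul_mem_smul_set hx, ?_⟩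
    have h1 := hT hx
    rw [mem_closedBall_zero_iff] at h1
    show ‖μ • x - ν • x‖ ≤ _
    rw [← sub_smul, norm_smul, Real.norm_eq_abs]
    exact mul_le_of_le_one_right (abs_nonneg _) h1

/-- Data at precision `δ`. -/
def Data (A T : Set E) (ε η δ : ℝ) : Prop :=
  ∃ (A' B' : Set E) (μ : ℝ), Near δ A (A' + B') ∧ Convex ℝ A' ∧ IsCompact A' ∧ Convex ℝ B' ∧
    IsCompact B' ∧ B'.Nonempty ∧ (0 : E) ∈ A' ∧ η ≤ μ ∧ Near (ε / 2 * μ) A' (μ • T)

theorem Data.mono {A T : Set E} {ε η δ δ' : ℝ} (h : Data A T ε η δ) (hδ : δ ≤ δ') :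
    Data A T ε η δ' := by
  obtain ⟨A', B', μ, h1, h2⟩ := h
  exact ⟨A', B', μ, h1.mono hδ, h2⟩

theorem limit_dec [FiniteDimensional ℝ E] {A T : Set E} (hA : IsCompact A)
    (hT : T ⊆ Metric.closedBall 0 1) (hT1 : ∃ x ∈ T, ‖x‖ = 1) {ε η : ℝ} (hε : 0 < ε)
    (hε1 : ε ≤ 1) (hη : 0 < η) (H : ∀ δ : ℝ, 0 < δ → Data A T ε η δ) : Dec A T ε := by
  have : ProperSpace E := FiniteDimensional.proper ℝ E
  obtain ⟨C, hC⟩ := hA.isBounded.exists_norm_le
  have hH : ∀ j : ℕ, Data A T ε η (1 / ((j : ℝ) + 1)) := fun j => H _ (by positivity)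
  choose A' B' μ hnear hA'v hA'c hB'v hB'c hB'n h0 hμ hap using hH
  have hj1 : ∀ j : ℕ, 1 / ((j : ℝ) + 1) ≤ 1 := by
    intro j
    rw [div_le_one (by positivity)]
    have : (0 : ℝ) ≤ j := Nat.cast_nonneg j
    linarith
  -- bounds
  have hP : ∀ j, ∀ x ∈ A' j + B' j, ‖x‖ ≤ C + 1 := by
    intro j x hx
    obtain ⟨y, hy, h1⟩ := (hnear j).2 x hx
    have h2 := hC y hy
    have h3 : x = y - (y - x) := by abel
    rw [h3]
    exact (norm_sub_le _ _).trans (add_le_add h2 (h1.trans (hj1 j)))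
  have hB : ∀ j, ∀ x ∈ B' j, ‖x‖ ≤ C + 1 := by
    intro j x hx
    refine hP j x ?_
    have := Set.add_mem_add (h0 j) hx
    rwa [zero_add] at this
  have hAb : ∀ j, ∀ x ∈ A' j, ‖x‖ ≤ 2 * (C + 1) := by
    intro j x hx
    obtain ⟨b, hb⟩ := hB'n j
    have h1 := hP j _ (Set.add_mem_add hx hb)
    have h2 := hB j b hb
    have h3 : x = (x + b) - b := by abel
    rw [h3]
    refine (norm_sub_le _ _).trans ?_
    have : ‖x + b‖ ≤ C + 1 := h1
    linarith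
  obtain ⟨x₁, hx₁, hx₁n⟩ := hT1
  have hμ0 : ∀ j, 0 < μ j := fun j => lt_of_lt_of_le hη (hμ j)
  have hμb : ∀ j, μ j ≤ 4 * (C + 1) := by
    intro j
    obtain ⟨a, ha, h1⟩ := (hap j).2 _ (Set.smul_mem_smul_set hx₁)
    have h2 := hAb j a ha
    have h3 : ‖μ j • x₁‖ = μ j := by
      rw [norm_smul, hx₁n, mul_one, Real.norm_eq_abs, abs_of_pos (hμ0 j)]
    have h4 : μ j • x₁ = a - (a - μ j • x₁) := by abel
    have h5 := norm_sub_le a (a - μ j • x₁)
    rw [← h4, h3] at h5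
    have h6 : ε / 2 * μ j ≤ 1 / 2 * μ j :=
      mul_le_mul_of_nonneg_right (by linarith) (hμ0 j).le
    have h7 : ‖a - μ j • x₁‖ ≤ ε / 2 * μ j := h1
    linarith
  -- the sequence in the hyperspace
  let S : ℕ → NonemptyCompacts E × (NonemptyCompacts E × ℝ) := fun j =>
    (⟨⟨A' j, hA'c j⟩, ⟨0, h0 j⟩⟩, (⟨⟨B' j, hB'c j⟩, hB'n j⟩, μ j))
  have hcomp : IsCompact ({L : NonemptyCompacts E | (L : Set E) ⊆
      Metric.closedBall 0 (2 * (C + 1))} ×ˢ ({L : NonemptyCompacts E | (L : Set E) ⊆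
      Metric.closedBall 0 (C + 1)} ×ˢ Icc η (4 * (C + 1)))) :=
    (NonemptyCompacts.isCompact_subsets_of_isCompact (isCompact_closedBall _ _)).prod
      ((NonemptyCompacts.isCompact_subsets_of_isCompact (isCompact_closedBall _ _)).prod
        isCompact_Icc)
  have hS : ∀ j, S j ∈ ({L : NonemptyCompacts E | (L : Set E) ⊆
      Metric.closedBall 0 (2 * (C + 1))} ×ˢ ({L : NonemptyCompacts E | (L : Set E) ⊆
      Metric.closedBall 0 (C + 1)} ×ˢ Icc η (4 * (C + 1)))) := by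
    intro j
    refine ⟨fun x hx => ?_, fun x hx => ?_, hμ j, hμb j⟩
    · rw [mem_closedBall_zero_iff]; exact hAb j x hx
    · rw [mem_closedBall_zero_iff]; exact hB j x hx
  obtain ⟨⟨A₁, B₁, ν⟩, hlim, φ, hφ, hconv⟩ := hcomp.tendsto_subseq hS
  obtain ⟨-, -, hν, -⟩ := hlim
  have hν0 : 0 < ν := lt_of_lt_of_le hη hν
  -- closeness
  have hclose : ∀ δ : ℝ, 0 < δ → ∃ j : ℕ, 1 / ((j : ℝ) + 1) ≤ δ ∧ Near δ (A' j) (A₁ : Set E) ∧
      Near δ (B' j) (B₁ : Set E) ∧ |μ j - ν| ≤ δ := by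
    intro δ hδ
    obtain ⟨N, hN⟩ := Metric.tendsto_atTop.1 hconv δ hδ
    obtain ⟨N', hN'⟩ := exists_nat_one_div_lt hδ
    have h1 := hN (max N N') (le_max_left _ _)
    simp only [Function.comp] at h1
    rw [Prod.dist_eq, max_lt_iff, Prod.dist_eq, max_lt_iff] at h1
    obtain ⟨h2, h3, h4⟩ := h1
    refine ⟨φ (max N N'), ?_, near_of_dist h2, near_of_dist h3, ?_⟩
    · refine le_trans ?_ hN'.le
      have h5 : N' ≤ φ (max N N') := (le_max_right _ _).trans (hφ.id_le _)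
      have h6 : (N' : ℝ) ≤ (φ (max N N') : ℝ) := by exact_mod_cast h5
      gcongr
    · rw [Real.dist_eq] at h4
      exact h4.le
  have hA₁c : IsClosed (A₁ : Set E) := A₁.isCompact.isClosed
  have hB₁c : IsClosed (B₁ : Set E) := B₁.isCompact.isClosed
  refine ⟨ν, hν0, A₁, B₁, ?_, A₁.isCompact, A₁.nonempty, ?_, B₁.isCompact, B₁.nonempty, ?_, ?_⟩
  · refine convex_of_near hA₁c fun δ hδ => ?_
    obtain ⟨j, -, h1, -, -⟩ := hclose δ hδ
    exact ⟨_, hA'v j, h1⟩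
  · refine convex_of_near hB₁c fun δ hδ => ?_
    obtain ⟨j, -, -, h1, -⟩ := hclose δ hδ
    exact ⟨_, hB'v j, h1⟩
  · have hn : ∀ δ : ℝ, 0 < δ → Near δ A ((A₁ : Set E) + (B₁ : Set E)) := by
      intro δ hδ
      obtain ⟨j, h1, h2, h3, -⟩ := hclose (δ / 3) (by positivity)
      exact (((hnear j).mono h1).trans (h2.add h3)).mono (by linarith)
    refine subset_antisymm ?_ ?_
    · intro x hx
      refine mem_of_near (A₁.isCompact.add B₁.isCompact).isClosed fun δ hδ => ?_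
      exact (hn δ hδ).1 x hx
    · intro x hx
      refine mem_of_near hA.isClosed fun δ hδ => ?_
      obtain ⟨y, hy, h1⟩ := (hn δ hδ).2 x hx
      exact ⟨y, hy, by rw [norm_sub_rev]; exact h1⟩
  · obtain ⟨j, -, h2, -, h4⟩ := hclose (ε * ν / 8) (by positivity)
    refine (h2.symm.trans ((hap j).trans (near_smul hT (μ j) ν))).mono ?_
    have h5 : μ j ≤ ν + ε * ν / 8 := by
      have := abs_le.1 h4
      linarith [this.2]
    have h6 : ε / 2 * μ j ≤ ε / 2 * (ν + ε * ν / 8) :=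
      mul_le_mul_of_nonneg_left h5 (by positivity)
    have h7 : ε / 2 * (ε * ν / 8) ≤ ε * ν / 16 := by
      have h8 : ε * (ε * ν) ≤ 1 * (ε * ν) := mul_le_mul_of_nonneg_right hε1 (by positivity)
      nlinarith [h8]
    nlinarith [h4, h6, h7]

/-! ### Normalisation -/

/-- A class of sets is invariant under translations and homotheties. -/
def HomCls (g : Set E → Prop) : Prop :=
  ∀ (T : Set E) (t : E) (r : ℝ), g T → g ((fun y : E => r • (y - t)) '' T)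

theorem normalise {T : Set E} {g : Set E → Prop} (hg : HomCls g) (hT : Convex ℝ T)
    (hTc : IsCompact T) (hTn : T.Nonempty) (hk : g T) :
    ∃ t ∈ T, ∃ ρ : ℝ, 0 ≤ ρ ∧ T ⊆ Metric.closedBall t ρ ∧ (ρ = 0 ∨ ∃ T' ∈ TT g,
      T = {t} + ρ • (T' : Set E)) := by
  obtain ⟨t, ht⟩ := hTn
  obtain ⟨x, hx, hmax⟩ := hTc.exists_isMaxOn ⟨t, ht⟩ (f := fun x : E => ‖x - t‖) (by fun_prop)
  refine ⟨t, ht, ‖x - t‖, norm_nonneg _, fun y hy => ?_, ?_⟩
  · rw [Metric.mem_closedBall, dist_eq_norm]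
    exact hmax hy
  rcases eq_or_lt_of_le (norm_nonneg (x - t)) with h0 | h0
  · exact Or.inl h0.symm
  refine Or.inr ?_
  set ρ : ℝ := ‖x - t‖ with hρ
  have hf : Continuous (fun y : E => ρ⁻¹ • (y - t)) := by fun_prop
  have hset : (fun y : E => ρ⁻¹ • (y - t)) '' T = ρ⁻¹ • (T + {-t}) := by
    ext z
    constructor
    · rintro ⟨y, hy, rfl⟩
      exact ⟨y + -t, Set.add_mem_add hy rfl, by simp [sub_eq_add_neg]⟩
    · rintro ⟨_, ⟨y, hy, s, hs, rfl⟩, rfl⟩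
      rw [Set.mem_singleton_iff] at hs
      subst hs
      exact ⟨y, hy, by simp [sub_eq_add_neg]⟩
  refine ⟨⟨⟨(fun y : E => ρ⁻¹ • (y - t)) '' T, hTc.image hf⟩, ⟨_, ⟨t, ht, rfl⟩⟩⟩, ?_, ?_⟩
  · refine ⟨?_, ?_, ?_, ?_, ?_⟩
    · rintro _ ⟨y, hy, rfl⟩
      rw [mem_closedBall_zero_iff, norm_smul, Real.norm_eq_abs, abs_of_pos (inv_pos.2 h0),
        inv_mul_le_iff₀ h0, mul_one]
      exact hmax hy
    · show Convex ℝ ((fun y : E => ρ⁻¹ • (y - t)) '' T)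
      rw [hset]
      exact (hT.add (convex_singleton _)).smul _
    · exact hg T t ρ⁻¹ hk
    · exact ⟨t, ht, by simp⟩
    · refine ⟨_, ⟨x, hx, rfl⟩, ?_⟩
      rw [norm_smul, Real.norm_eq_abs, abs_of_pos (inv_pos.2 h0), ← hρ, inv_mul_cancel₀ h0.ne']
  · ext z
    constructor
    · intro hz
      refine ⟨t, rfl, z - t, ⟨_, ⟨z, hz, rfl⟩, ?_⟩, ?_⟩
      · show ρ • ρ⁻¹ • (z - t) = z - t
        rw [smul_smul, mul_inv_cancel₀ h0.ne', one_smul]
      · show t + (z - t) = z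
        abel
    · rintro ⟨s, hs, _, ⟨_, ⟨y, hy, rfl⟩, rfl⟩, rfl⟩
      rw [Set.mem_singleton_iff] at hs
      subst hs
      show s + ρ • ρ⁻¹ • (y - s) ∈ T
      rw [smul_smul, mul_inv_cancel₀ h0.ne', one_smul, add_sub_cancel]
      exact hy

end Pool.Agent.K3h48.AS
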