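import Pool.Agent.K3h48.AS.Extract

set_option autoImplicit false
set_option linter.unusedSectionVars false

/-!
An approximate summand of a limit of Minkowski sums of sets of small dimension: the extraction.
-/

open Set Topology TopologicalSpace Filter
open scoped Pointwise

namespace Pool.Agent.K3h48.AS

variable {E F : Type*} [NormedAddCommGroup E] [NormedSpace ℝ E] [NormedAddCommGroup F]
  [NormedSpace ℝ F]

theorem sum_smul_set {ι : Type*} (s : Finset ι) (ρ : ι → ℝ) (hρ : ∀ i ∈ s, 0 ≤ ρ i) {T : Set E}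
    (hT : Convex ℝ T) (hTn : T.Nonempty) : ∑ i ∈ s, ρ i • T = (∑ i ∈ s, ρ i) • T := by
  classical
  induction s using Finset.induction with
  | empty => simp [Set.zero_smul_set hTn]
  | insert a s ha ih =>
    rw [Finset.sum_insert ha, Finset.sum_insert ha,
      ih fun i hi => hρ i (Finset.mem_insert_of_mem hi)]
    exact (hT.add_smul (hρ a (Finset.mem_insert_self _ _))
      (Finset.sum_nonneg fun i hi => hρ i (Finset.mem_insert_of_mem hi))).symm

theorem sum_good {ι : Type*} (s : Finset ι) (X : ι → Set E)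
    (h : ∀ i ∈ s, Convex ℝ (X i) ∧ IsCompact (X i) ∧ (X i).Nonempty) :
    Convex ℝ (∑ i ∈ s, X i) ∧ IsCompact (∑ i ∈ s, X i) ∧ (∑ i ∈ s, X i).Nonempty := by
  classical
  induction s using Finset.induction with
  | empty =>
    rw [Finset.sum_empty]
    exact ⟨convex_zero, isCompact_singleton, Set.singleton_nonempty _⟩
  | insert a s ha ih =>
    rw [Finset.sum_insert ha]
    obtain ⟨h1, h2, h3⟩ := h a (Finset.mem_insert_self _ _)
    obtain ⟨h4, h5, h6⟩ := ih fun i hi => h i (Finset.mem_insert_of_mem hi)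
    exact ⟨h1.add h4, h2.add h5, h3.add h6⟩

theorem sum_zero_mem {ι : Type*} (s : Finset ι) (X : ι → Set E) (h : ∀ i ∈ s, (0 : E) ∈ X i) :
    (0 : E) ∈ ∑ i ∈ s, X i := by
  classical
  induction s using Finset.induction with
  | empty => rw [Finset.sum_empty]; rfl
  | insert a s ha ih =>
    rw [Finset.sum_insert ha]
    exact ⟨0, h a (Finset.mem_insert_self _ _), 0,
      ih fun i hi => h i (Finset.mem_insert_of_mem hi), add_zero 0⟩

theorem sum_ball {ι : Type*} (s : Finset ι) (X : ι → Set E) (t : ι → E) (ρ : ι → ℝ)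
    (h : ∀ i ∈ s, X i ⊆ Metric.closedBall (t i) (ρ i)) :
    ∑ i ∈ s, X i ⊆ Metric.closedBall (∑ i ∈ s, t i) (∑ i ∈ s, ρ i) := by
  classical
  induction s using Finset.induction with
  | empty =>
    rw [Finset.sum_empty, Finset.sum_empty, Finset.sum_empty]
    rintro x rfl
    simp
  | insert a s ha ih =>
    rw [Finset.sum_insert ha, Finset.sum_insert ha, Finset.sum_insert ha]
    rintro _ ⟨x, hx, y, hy, rfl⟩
    have h1 := h a (Finset.mem_insert_self _ _) hx
    have h2 := ih (fun i hi => h i (Finset.mem_insert_of_mem hi)) hy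
    rw [Metric.mem_closedBall, dist_eq_norm] at h1 h2 ⊢
    have h3 : (fun x1 x2 : E => x1 + x2) x y - (t a + ∑ i ∈ s, t i) =
        (x - t a) + (y - ∑ i ∈ s, t i) := by
      show x + y - _ = _
      abel
    rw [h3]
    exact (norm_add_le _ _).trans (add_le_add h1 h2)

theorem step {A : Set E} {g : Set E → Prop} (hg : HomCls g) (G : Finset (NonemptyCompacts E))
    (ε : NonemptyCompacts E → ℝ) (hGn : G.Nonempty) (hG : ∀ T ∈ G, T ∈ TT g)
    (hcov : ∀ T ∈ TT g, ∃ c ∈ G, dist T c < ε c / 2) {x y : E} (hx : x ∈ A) (hy : y ∈ A)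
    {δ : ℝ} (hδ : δ ≤ ‖x - y‖ / 4) {P : Set E} (hP : IsSumOf g P)
    (hAP : Near δ A P) : ∃ c ∈ G, Data A c (ε c) (‖x - y‖ / (4 * G.card)) δ := by
  classical
  obtain ⟨m, T, hT, rfl⟩ := hP
  choose t ht ρ hρ hball hcase using fun i => normalise hg (hT i).1 (hT i).2.1
    (hT i).2.2.1 (hT i).2.2.2
  -- the class
  have hcl : ∀ i, ∃ c ∈ G, Near (ε c / 2 * ρ i) (T i + {-(t i)}) (ρ i • (c : Set E)) := by
    intro i
    rcases hcase i with h0 | ⟨T', hT', hTi⟩
    · obtain ⟨c, hc⟩ := hGn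
      refine ⟨c, hc, ?_⟩
      have h1 : T i = {t i} := by
        refine subset_antisymm ?_ (Set.singleton_subset_iff.2 (ht i))
        have := hball i
        rw [h0, Metric.closedBall_zero] at this
        exact this
      rw [h0, Set.zero_smul_set c.nonempty, mul_zero, h1, Set.singleton_add_singleton,
        add_neg_cancel]
      exact Near.refl le_rfl _
    · obtain ⟨c, hc, hd⟩ := hcov T' hT'
      refine ⟨c, hc, ?_⟩
      have h1 := near_of_dist hd
      have h2 : T i + {-(t i)} = ρ i • (T' : Set E) := by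
        rw [hTi, add_comm {t i}, add_assoc, Set.singleton_add_singleton, add_neg_cancel]
        exact add_zero _
      rw [h2]
      constructor
      · rintro _ ⟨a, ha, rfl⟩
        obtain ⟨b, hb, h3⟩ := h1.1 a ha
        refine ⟨ρ i • b, Set.smul_mem_smul_set hb, ?_⟩
        show ‖ρ i • a - ρ i • b‖ ≤ _
        rw [← smul_sub, norm_smul, Real.norm_eq_abs, abs_of_nonneg (hρ i), mul_comm]
        exact mul_le_mul_of_nonneg_right h3 (hρ i)
      · rintro _ ⟨b, hb, rfl⟩
        obtain ⟨a, ha, h3⟩ := h1.2 b hb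
        refine ⟨ρ i • a, Set.smul_mem_smul_set ha, ?_⟩
        show ‖ρ i • a - ρ i • b‖ ≤ _
        rw [← smul_sub, norm_smul, Real.norm_eq_abs, abs_of_nonneg (hρ i), mul_comm]
        exact mul_le_mul_of_nonneg_right h3 (hρ i)
  choose c hcG hcn using hcl
  -- the total size
  have htot : ‖x - y‖ / 4 ≤ ∑ i, ρ i := by
    have hb := sum_ball Finset.univ T t ρ (fun i _ => hball i)
    obtain ⟨x', hx', h1⟩ := hAP.1 x hx
    obtain ⟨y', hy', h2⟩ := hAP.1 y hy
    have h3 := hb hx'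
    have h4 := hb hy'
    rw [Metric.mem_closedBall, dist_eq_norm] at h3 h4
    have h5 : x - y = (x - x') - (y - y') + ((x' - ∑ i, t i) - (y' - ∑ i, t i)) := by abel
    have h6 := norm_add_le ((x - x') - (y - y')) ((x' - ∑ i, t i) - (y' - ∑ i, t i))
    rw [← h5] at h6
    have h7 := norm_sub_le (x - x') (y - y')
    have h8 := norm_sub_le (x' - ∑ i, t i) (y' - ∑ i, t i)
    linarith
  have hcard : (0 : ℝ) < G.card := by exact_mod_cast hGn.card_pos
  -- one class is large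
  obtain ⟨c₀, hc₀, hlarge⟩ : ∃ c₀ ∈ G, ‖x - y‖ / (4 * G.card) ≤
      ∑ i ∈ Finset.univ.filter (fun i => c i = c₀), ρ i := by
    by_contra hcon
    push Not at hcon
    have h1 : ∑ c₀ ∈ G, ∑ i ∈ Finset.univ.filter (fun i => c i = c₀), ρ i = ∑ i, ρ i :=
      Finset.sum_fiberwise_of_maps_to (fun i _ => hcG i) _
    have h2 : ∑ c₀ ∈ G, ∑ i ∈ Finset.univ.filter (fun i => c i = c₀), ρ i <
        ∑ _c₀ ∈ G, ‖x - y‖ / (4 * G.card) := Finset.sum_lt_sum_of_nonempty hGn hcon
    rw [h1, Finset.sum_const, nsmul_eq_mul] at h2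
    have h3 : (G.card : ℝ) * (‖x - y‖ / (4 * G.card)) = ‖x - y‖ / 4 := by field_simp
    rw [h3] at h2
    linarith
  set s := Finset.univ.filter (fun i => c i = c₀) with hs
  set s' := Finset.univ.filter (fun i => ¬ c i = c₀) with hs'
  refine ⟨c₀, hc₀, ∑ i ∈ s, (T i + {-(t i)}), ∑ i ∈ s', T i + {∑ i ∈ s, t i}, ∑ i ∈ s, ρ i,
    ?_, ?_, ?_, ?_, ?_, ?_, ?_, hlarge, ?_⟩
  · have h1 : ∑ i, T i = ∑ i ∈ s, (T i + {-(t i)}) + (∑ i ∈ s', T i + {∑ i ∈ s, t i}) := by
      have h2 : ∑ i ∈ s, (T i + {-(t i)}) = ∑ i ∈ s, T i + {-(∑ i ∈ s, t i)} := by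
        rw [Finset.sum_add_distrib]
        congr 1
        rw [← Finset.sum_neg_distrib]
        exact (map_sum (Set.singletonAddMonoidHom (α := E)) (fun i => -(t i)) s).symm
      rw [h2, ← Finset.sum_filter_add_sum_filter_not Finset.univ (fun i => c i = c₀)]
      have h3 : ∑ i ∈ s, T i + {-(∑ i ∈ s, t i)} + (∑ i ∈ s', T i + {∑ i ∈ s, t i}) =
          ∑ i ∈ s, T i + ∑ i ∈ s', T i + ({-(∑ i ∈ s, t i)} + {∑ i ∈ s, t i}) := by
        ac_rfl
      rw [h3, Set.singleton_add_singleton, neg_add_cancel]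
      exact (add_zero _).symm
    rw [← h1]
    exact hAP
  · exact (sum_good s _ fun i _ => ⟨(hT i).1.add (convex_singleton _),
      (hT i).2.1.add isCompact_singleton, (hT i).2.2.1.add (Set.singleton_nonempty _)⟩).1
  · exact (sum_good s _ fun i _ => ⟨(hT i).1.add (convex_singleton _),
      (hT i).2.1.add isCompact_singleton, (hT i).2.2.1.add (Set.singleton_nonempty _)⟩).2.1
  · exact (sum_good s' _ fun i _ => ⟨(hT i).1, (hT i).2.1, (hT i).2.2.1⟩).1.add
      (convex_singleton _)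
  · exact (sum_good s' _ fun i _ => ⟨(hT i).1, (hT i).2.1, (hT i).2.2.1⟩).2.1.add
      isCompact_singleton
  · exact (sum_good s' _ fun i _ => ⟨(hT i).1, (hT i).2.1, (hT i).2.2.1⟩).2.2.add
      (Set.singleton_nonempty _)
  · refine sum_zero_mem s _ fun i _ => ?_
    exact ⟨t i, ht i, -(t i), rfl, add_neg_cancel _⟩
  · have h1 := Near.sum s (fun i => ε c₀ / 2 * ρ i) (fun i => T i + {-(t i)})
      (fun i => ρ i • (c₀ : Set E)) (fun i hi => by
        have h2 : c i = c₀ := (Finset.mem_filter.1 hi).2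
        have h3 := hcn i
        rwa [h2] at h3)
    rw [sum_smul_set s ρ (fun i _ => hρ i) (hG c₀ hc₀).2.1 c₀.nonempty, ← Finset.mul_sum] at h1
    exact h1

/-- There are normalised sets in the class. -/
theorem TT_nonempty {A : Set E} {g : Set E → Prop} (hg : HomCls g) {x y : E} (hx : x ∈ A)
    (hy : y ∈ A) (hxy : x ≠ y) {δ : ℝ} (hδ : δ ≤ ‖x - y‖ / 4) {P : Set E} (hP : IsSumOf g P)
    (hAP : Near δ A P) : (TT g).Nonempty := by
  classical
  by_contra hcon
  obtain ⟨m, T, hT, rfl⟩ := hP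
  choose t ht ρ hρ hball hcase using fun i => normalise hg (hT i).1 (hT i).2.1
    (hT i).2.2.1 (hT i).2.2.2
  have h0 : ∀ i, ρ i = 0 := by
    intro i
    rcases hcase i with h | ⟨T', hT', -⟩
    · exact h
    · exact absurd ⟨T', hT'⟩ hcon
  have hb := sum_ball Finset.univ T t ρ (fun i _ => hball i)
  obtain ⟨x', hx', h1⟩ := hAP.1 x hx
  obtain ⟨y', hy', h2⟩ := hAP.1 y hy
  have h3 := hb hx'
  have h4 := hb hy'
  rw [Finset.sum_eq_zero (fun i _ => h0 i), Metric.closedBall_zero, Set.mem_singleton_iff] at h3 h4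
  have h5 : x - y = (x - x') - (y - y') := by rw [h3, h4]; abel
  have h6 := norm_sub_le (x - x') (y - y')
  rw [← h5] at h6
  have h7 : 0 < ‖x - y‖ := norm_pos_iff.2 (sub_ne_zero.2 hxy)
  linarith

/-- **The extraction of an approximate summand.** -/
theorem extract [FiniteDimensional ℝ E] {A : Set E} {g : Set E → Prop} (hg : HomCls g)
    (hgc : ClosedCls g) (hAc : IsCompact A) (hlim : IsLimitOfSums g A) {x y : E} (hx : x ∈ A)
    (hy : y ∈ A) (hxy : x ≠ y) : ∃ T ∈ TT g, ∀ ε : ℝ, 0 < ε → Dec A T ε := by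
  classical
  by_contra hcon
  push Not at hcon
  have hex : ∀ T : NonemptyCompacts E, ∃ ε : ℝ, 0 < ε ∧ ε ≤ 1 ∧ (T ∈ TT g → ¬ Dec A T ε) := by
    intro T
    by_cases hT : T ∈ TT g
    · obtain ⟨ε, hε, h1⟩ := hcon T hT
      exact ⟨min ε 1, lt_min hε one_pos, min_le_right _ _, fun _ h2 =>
        h1 (h2.mono (min_le_left _ _))⟩
    · exact ⟨1, one_pos, le_rfl, fun h => absurd h hT⟩
  choose ε hε hε1 hbad using hex
  obtain ⟨G, hG, hcov⟩ := (TT_compact hgc).elim_nhds_subcover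
    (fun T => Metric.ball T (ε T / 2)) (fun T _ => Metric.ball_mem_nhds _ (half_pos (hε T)))
  have hxy0 : 0 < ‖x - y‖ := norm_pos_iff.2 (sub_ne_zero.2 hxy)
  have hnear : ∀ δ : ℝ, 0 < δ → ∃ P, IsSumOf g P ∧ Near δ A P := by
    intro δ hδ
    obtain ⟨P, hP, hd⟩ := hlim δ hδ
    refine ⟨P, hP, ?_⟩
    obtain ⟨m, T, hT, rfl⟩ := hP
    have h1 := sum_good Finset.univ T (fun i _ => ⟨(hT i).1, (hT i).2.1, (hT i).2.2.1⟩)
    exact near_of_hausdorffDist hAc h1.2.1 ⟨x, hx⟩ h1.2.2 hd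
  -- the family is not empty
  have hne : (TT g).Nonempty := by
    obtain ⟨P, hP, hd⟩ := hnear (‖x - y‖ / 4) (by positivity)
    exact TT_nonempty hg hx hy hxy le_rfl hP hd
  have hGn : G.Nonempty := by
    obtain ⟨T, hT⟩ := hne
    obtain ⟨c, hc, -⟩ := Set.mem_iUnion₂.1 (hcov hT)
    exact ⟨c, hc⟩
  have hcov' : ∀ T ∈ TT g, ∃ c ∈ G, dist T c < ε c / 2 := by
    intro T hT
    obtain ⟨c, hc, h1⟩ := Set.mem_iUnion₂.1 (hcov hT)
    exact ⟨c, hc, h1⟩
  have hcard : (0 : ℝ) < G.card := by exact_mod_cast hGn.card_pos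
  have hstep : ∀ δ : ℝ, 0 < δ → δ ≤ ‖x - y‖ / 4 →
      ∃ c ∈ G, Data A c (ε c) (‖x - y‖ / (4 * G.card)) δ := by
    intro δ hδ hδ'
    obtain ⟨P, hP, hd⟩ := hnear δ hδ
    exact step hg G ε hGn hG hcov' hx hy hδ' hP hd
  -- one of the classes works for all precisions
  obtain ⟨c, hc, hall⟩ : ∃ c ∈ G, ∀ δ : ℝ, 0 < δ →
      Data A c (ε c) (‖x - y‖ / (4 * G.card)) δ := by
    by_contra hno
    push Not at hno
    have hno' : ∀ c : NonemptyCompacts E, ∃ δ : ℝ, 0 < δ ∧ (c ∈ G →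
        ¬ Data A c (ε c) (‖x - y‖ / (4 * G.card)) δ) := by
      intro c
      by_cases hc : c ∈ G
      · obtain ⟨δ, hδ, h1⟩ := hno c hc
        exact ⟨δ, hδ, fun _ => h1⟩
      · exact ⟨1, one_pos, fun h => absurd h hc⟩
    choose δ hδ hδno using hno'
    set d : ℝ := min (‖x - y‖ / 4) (G.inf' hGn δ) with hd
    have hd0 : 0 < d := by
      refine lt_min (by positivity) ?_
      rw [Finset.lt_inf'_iff]
      exact fun c _ => hδ c
    obtain ⟨c, hc, h1⟩ := hstep d hd0 (min_le_left _ _)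
    exact hδno c hc (h1.mono ((min_le_right _ _).trans (Finset.inf'_le _ hc)))
  have hcT := hG c hc
  exact hbad c hcT (limit_dec hAc hcT.1 hcT.2.2.2.2 (hε c) (hε1 c) (by positivity) hall)

end Pool.Agent.K3h48.AS
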