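import Pool.Agent.K3h48.AS.Main
import Pool.Agent.R753.HS.B

set_option autoImplicit false
set_option linter.unusedSectionVars false

/-!
The class of the convex hulls of few sets of small dimension.
-/

open Set Topology TopologicalSpace Filter
open scoped Pointwise
open Pool.Agent.W677.Summand

namespace Pool.Agent.K3h48.AS

/-- Convex hulls of nonempty compact convex sets `F_i` of dimensions `d_i ≤ k` with
`∑ 2 ^ d_i ≤ 2 ^ (k + 1)`. -/
def HullCls (k n : ℕ) (T : Set (Eu n)) : Prop :=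
  ∃ (r : ℕ) (F : Fin r → Set (Eu n)), (∀ i, Convex ℝ (F i) ∧ IsCompact (F i) ∧ (F i).Nonempty ∧
    dm (F i) ≤ k) ∧ ∑ i, 2 ^ dm (F i) ≤ 2 ^ (k + 1) ∧ T = convexHull ℝ (⋃ i, F i)

theorem dm_image {n m : ℕ} (f : Eu n →ᵃ[ℝ] Eu m) (F : Set (Eu n)) : dm (f '' F) ≤ dm F := by
  unfold dm
  rw [← f.map_vectorSpan]
  exact Submodule.finrank_map_le _ _

theorem hull_aff (k : ℕ) : AffCls (HullCls k) := by
  rintro n m f T ⟨r, F, hF, hs, rfl⟩
  refine ⟨r, fun i => f '' F i, fun i => ?_, ?_, ?_⟩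
  · obtain ⟨h1, h2, h3, h4⟩ := hF i
    exact ⟨h1.affine_image f, h2.image f.continuous_of_finiteDimensional, h3.image _,
      (dm_image f _).trans h4⟩
  · exact (Finset.sum_le_sum fun i _ => Nat.pow_le_pow_right (by norm_num)
      (dm_image f (F i))).trans hs
  · rw [AffineMap.image_convexHull, image_iUnion]

theorem near_hull {E : Type} [NormedAddCommGroup E] [NormedSpace ℝ E] {r : ℕ} {δ : ℝ}
    {F F' : Fin r → Set E} (hF : ∀ i, Convex ℝ (F i)) (hFn : ∀ i, (F i).Nonempty)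
    (hF' : ∀ i, Convex ℝ (F' i)) (hFn' : ∀ i, (F' i).Nonempty)
    (h : ∀ i, Near δ (F i) (F' i)) :
    Near δ (convexHull ℝ (⋃ i, F i)) (convexHull ℝ (⋃ i, F' i)) := by
  rw [Pool.Agent.R753.HS.hull_eq_comb hF hFn, Pool.Agent.R753.HS.hull_eq_comb hF' hFn']
  have key : ∀ {G G' : Fin r → Set E}, (∀ i, Near δ (G i) (G' i)) →
      ∀ x ∈ Pool.Agent.R753.HS.comb G, ∃ y ∈ Pool.Agent.R753.HS.comb G', ‖x - y‖ ≤ δ := by
    intro G G' hG x hx
    rw [Pool.Agent.R753.HS.mem_comb] at hx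
    obtain ⟨l, a, hl, hl1, ha, rfl⟩ := hx
    choose b hb hab using fun i => (hG i).1 (a i) (ha i)
    refine ⟨∑ i, l i • b i, Pool.Agent.R753.HS.mem_comb.2 ⟨l, b, hl, hl1, hb, rfl⟩, ?_⟩
    rw [← Finset.sum_sub_distrib]
    calc ‖∑ i, (l i • a i - l i • b i)‖ ≤ ∑ i, ‖l i • a i - l i • b i‖ := norm_sum_le _ _
      _ ≤ ∑ i, l i * δ := by
          refine Finset.sum_le_sum fun i _ => ?_
          rw [← smul_sub, norm_smul, Real.norm_eq_abs, abs_of_nonneg (hl i)]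
          exact mul_le_mul_of_nonneg_left (hab i) (hl i)
      _ = δ := by rw [← Finset.sum_mul, hl1, one_mul]
  refine ⟨key h, fun y hy => ?_⟩
  obtain ⟨x, hx, h1⟩ := key (fun i => (h i).symm) y hy
  exact ⟨x, hx, by rw [norm_sub_rev]; exact h1⟩

/-- For a fixed type, the limits stay in the class. -/
theorem closed_type {n r : ℕ} (d : Fin r → ℕ) {T : Set (Eu n)} (hT : IsCompact T)
    (hTn : T.Nonempty)
    (h : ∀ δ : ℝ, 0 < δ → ∃ F : Fin r → Set (Eu n), (∀ i, Convex ℝ (F i) ∧ IsCompact (F i) ∧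
      (F i).Nonempty ∧ dm (F i) ≤ d i) ∧ Near δ (convexHull ℝ (⋃ i, F i)) T) :
    ∃ F : Fin r → Set (Eu n), (∀ i, Convex ℝ (F i) ∧ IsCompact (F i) ∧ (F i).Nonempty ∧
      dm (F i) ≤ d i) ∧ T = convexHull ℝ (⋃ i, F i) := by
  classical
  obtain ⟨C, hC⟩ := hT.isBounded.exists_norm_le
  have hH : ∀ j : ℕ, ∃ F : Fin r → Set (Eu n), (∀ i, Convex ℝ (F i) ∧ IsCompact (F i) ∧
      (F i).Nonempty ∧ dm (F i) ≤ d i) ∧
      Near (1 / ((j : ℝ) + 1)) (convexHull ℝ (⋃ i, F i)) T := fun j => h _ (by positivity)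
  choose F hF hnear using hH
  have hj1 : ∀ j : ℕ, 1 / ((j : ℝ) + 1) ≤ 1 := by
    intro j
    rw [div_le_one (by positivity)]
    have : (0 : ℝ) ≤ j := Nat.cast_nonneg j
    linarith
  have hb : ∀ j i, ∀ x ∈ F j i, ‖x‖ ≤ C + 1 := by
    intro j i x hx
    obtain ⟨y, hy, h1⟩ := (hnear j).1 x (subset_convexHull ℝ _ (mem_iUnion.2 ⟨i, hx⟩))
    have h2 := hC y hy
    have h3 : x = y + (x - y) := by abel
    rw [h3]
    exact (norm_add_le _ _).trans (add_le_add h2 (h1.trans (hj1 j)))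
  let S : ℕ → Fin r → NonemptyCompacts (Eu n) := fun j i =>
    ⟨⟨F j i, (hF j i).2.1⟩, (hF j i).2.2.1⟩
  have hcomp : IsCompact (Set.univ.pi fun _ : Fin r => {L : NonemptyCompacts (Eu n) |
      (L : Set (Eu n)) ⊆ Metric.closedBall 0 (C + 1)}) :=
    isCompact_univ_pi fun _ =>
      NonemptyCompacts.isCompact_subsets_of_isCompact (isCompact_closedBall _ _)
  obtain ⟨A, -, φ, hφ, hconv⟩ := hcomp.tendsto_subseq (x := S) (fun j i _ x hx => by
    rw [mem_closedBall_zero_iff]; exact hb j i x hx)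
  have hclose : ∀ δ : ℝ, 0 < δ → ∃ j : ℕ, 1 / ((j : ℝ) + 1) ≤ δ ∧
      ∀ i, Near δ (F j i) (A i : Set (Eu n)) := by
    intro δ hδ
    obtain ⟨N, hN⟩ := Metric.tendsto_atTop.1 hconv δ hδ
    obtain ⟨N', hN'⟩ := exists_nat_one_div_lt hδ
    have h1 := hN (max N N') (le_max_left _ _)
    rw [dist_pi_lt_iff hδ] at h1
    refine ⟨φ (max N N'), ?_, fun i => near_of_dist (h1 i)⟩
    refine le_trans ?_ hN'.le
    have h5 : N' ≤ φ (max N N') := (le_max_right _ _).trans (hφ.id_le _)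
    have h6 : (N' : ℝ) ≤ (φ (max N N') : ℝ) := by exact_mod_cast h5
    gcongr
  have hA1 : ∀ i, Convex ℝ (A i : Set (Eu n)) := fun i =>
    convex_of_near (A i).isCompact.isClosed fun δ hδ => by
      obtain ⟨j, -, h1⟩ := hclose δ hδ
      exact ⟨_, (hF j i).1, h1 i⟩
  have hA2 : ∀ i, dm (A i : Set (Eu n)) ≤ d i := fun i =>
    finrank_of_near fun δ hδ => by
      obtain ⟨j, -, h1⟩ := hclose δ hδ
      exact ⟨_, (hF j i).2.2.2, h1 i⟩
  refine ⟨fun i => A i, fun i => ⟨hA1 i, (A i).isCompact, (A i).nonempty, hA2 i⟩, ?_⟩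
  have hn : ∀ δ : ℝ, 0 < δ → Near δ (convexHull ℝ (⋃ i, (A i : Set (Eu n)))) T := by
    intro δ hδ
    obtain ⟨j, h1, h2⟩ := hclose (δ / 2) (by positivity)
    have h3 := near_hull (fun i => hA1 i) (fun i => (A i).nonempty) (fun i => (hF j i).1)
      (fun i => (hF j i).2.2.1) (fun i => (h2 i).symm)
    exact (h3.trans ((hnear j).mono h1)).mono (by linarith)
  have hcl : IsClosed (convexHull ℝ (⋃ i, (A i : Set (Eu n)))) := by
    rw [Pool.Agent.R753.HS.hull_eq_comb hA1 (fun i => (A i).nonempty)]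
    exact (Pool.Agent.R753.HS.comb_compact fun i => (A i).isCompact).isClosed
  refine subset_antisymm ?_ ?_
  · intro x hx
    refine mem_of_near hcl fun δ hδ => ?_
    obtain ⟨y, hy, h1⟩ := (hn δ hδ).2 x hx
    exact ⟨y, hy, by rw [norm_sub_rev]; exact h1⟩
  · intro x hx
    exact mem_of_near hT.isClosed fun δ hδ => (hn δ hδ).1 x hx

theorem hull_closed (k n : ℕ) : ClosedCls (HullCls k n) := by
  classical
  intro T hT hTn h
  -- the types
  let τ := (r : Fin (2 ^ (k + 1) + 1)) × (Fin r → Fin (k + 1))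
  let D : τ → ℝ → Prop := fun t δ => ∃ F : Fin t.1 → Set (Eu n), (∀ i, Convex ℝ (F i) ∧
    IsCompact (F i) ∧ (F i).Nonempty ∧ dm (F i) ≤ (t.2 i : ℕ)) ∧
    Near δ (convexHull ℝ (⋃ i, F i)) T
  let good : τ → Prop := fun t => ∑ i, 2 ^ (t.2 i : ℕ) ≤ 2 ^ (k + 1)
  have hD : ∀ δ : ℝ, 0 < δ → ∃ t : τ, good t ∧ D t δ := by
    intro δ hδ
    obtain ⟨S, hS1, hS2, hS3, ⟨r, F, hF, hs, rfl⟩, hd⟩ := h δ hδ
    have hr : r < 2 ^ (k + 1) + 1 := by
      have h1 : ∑ _i : Fin r, 1 ≤ ∑ i, 2 ^ dm (F i) :=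
        Finset.sum_le_sum fun i _ => Nat.one_le_two_pow
      rw [Finset.sum_const, Finset.card_univ, Fintype.card_fin, smul_eq_mul, mul_one] at h1
      omega
    refine ⟨⟨⟨r, hr⟩, fun i => ⟨dm (F i), by have := (hF i).2.2.2; omega⟩⟩, hs, F,
      fun i => ⟨(hF i).1, (hF i).2.1, (hF i).2.2.1, le_rfl⟩, ?_⟩
    exact near_of_hausdorffDist hS2 hT hS3 hTn hd
  obtain ⟨t, hgt, ht⟩ : ∃ t : τ, good t ∧ ∀ δ : ℝ, 0 < δ → D t δ := by
    by_contra hno
    push Not at hno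
    have hno' : ∀ t : τ, ∃ δ : ℝ, 0 < δ ∧ (good t → ¬ D t δ) := by
      intro t
      by_cases hg : good t
      · obtain ⟨δ, hδ, h1⟩ := hno t hg
        exact ⟨δ, hδ, fun _ => h1⟩
      · exact ⟨1, one_pos, fun h => absurd h hg⟩
    choose δ hδ hδno using hno'
    obtain ⟨t₀, -, -⟩ := hD 1 one_pos
    have hne : (Finset.univ : Finset τ).Nonempty := ⟨t₀, Finset.mem_univ _⟩
    have hd0 : 0 < Finset.univ.inf' hne δ := by
      rw [Finset.lt_inf'_iff]
      exact fun c _ => hδ c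
    obtain ⟨t, hg, F, hF, hn⟩ := hD _ hd0
    exact hδno t hg ⟨F, hF, hn.mono (Finset.inf'_le _ (Finset.mem_univ t))⟩
  obtain ⟨F, hF, hTF⟩ := closed_type (fun i => (t.2 i : ℕ)) hT hTn ht
  refine ⟨t.1, F, fun i => ⟨(hF i).1, (hF i).2.1, (hF i).2.2.1, ?_⟩, ?_, hTF⟩
  · have h1 := (hF i).2.2.2
    have h2 := (t.2 i).2
    omega
  · exact (Finset.sum_le_sum fun i _ => Nat.pow_le_pow_right (by norm_num)
      (hF i).2.2.2).trans hgt

theorem hull_cov {k : ℕ} (hconj : ∀ d ≤ k, ∀ K : Set (Eu d), Bdy K → Cov K (2 ^ d)) (t : ℕ)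
    (L : Set (Eu t)) (hL : HullCls k t L) (hLb : Bdy L) : Cov L (2 ^ t) := by
  classical
  rcases le_or_gt t k with htk | htk
  · exact hconj t htk L hLb
  obtain ⟨r, F, hF, hs, hLF⟩ := hL
  choose a ha using fun i => (hF i).2.2.1
  choose ι hι using fun i => coords (vectorSpan ℝ (F i)) (k := dm (F i)) rfl
  have hC : ∀ i, Bdy (Lset (ι i) (F i) (a i)) := fun i =>
    ⟨Lset_convex (hF i).1, Lset_compact (fun x hx => (hι i x).1 hx) (ha i) (hF i).2.1,
      Lset_int (hι i) (ha i) (hF i).1⟩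
  have himg : ∀ i, (phi (ι i) (a i)).toAffineMap '' (Lset (ι i) (F i) (a i)) = F i := fun i =>
    phi_image (fun x hx => (hι i x).1 hx) (ha i)
  have h1 := Pool.Agent.R753.HS.hulls (ι := Fin r) (U := fun i => Eu (dm (F i)))
    (fun i => (phi (ι i) (a i)).toAffineMap) (fun i => Lset (ι i) (F i) (a i))
    (fun i => (hC i).1) (fun i => (hC i).2.1) (fun i => (hC i).2.2) (K := L) (by
      rw [hLF]
      congr 1
      exact Set.iUnion_congr fun i => (himg i).symm) hLb.2.2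
  obtain ⟨S, hS, hcov⟩ := h1.2.2 (fun i => 2 ^ dm (F i)) (fun i =>
    hconj _ (hF i).2.2.2 _ (hC i))
  exact ⟨S, hS.trans (hs.trans (Nat.pow_le_pow_right (by norm_num) htk)), hcov⟩

end Pool.Agent.K3h48.AS
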