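import Pool.Agent.K3h48.AS.Core

set_option autoImplicit false
set_option linter.unusedSectionVars false

/-!
Approximation of sets in the Hausdorff metric, and a compact family of normalised convex sets.
-/

open Set Topology TopologicalSpace Filter
open scoped Pointwise

namespace Pool.Agent.K3h48.AS

variable {E F : Type*} [NormedAddCommGroup E] [NormedSpace ℝ E] [NormedAddCommGroup F]
  [NormedSpace ℝ F]

/-- Hausdorff distance at most `δ`. -/
def Near (δ : ℝ) (X Y : Set E) : Prop :=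
  (∀ x ∈ X, ∃ y ∈ Y, ‖x - y‖ ≤ δ) ∧ (∀ y ∈ Y, ∃ x ∈ X, ‖x - y‖ ≤ δ)

theorem Near.mono {δ δ' : ℝ} {X Y : Set E} (h : Near δ X Y) (hδ : δ ≤ δ') : Near δ' X Y :=
  ⟨fun x hx => (h.1 x hx).imp fun _ hy => ⟨hy.1, hy.2.trans hδ⟩,
    fun y hy => (h.2 y hy).imp fun _ hx => ⟨hx.1, hx.2.trans hδ⟩⟩

theorem Near.symm {δ : ℝ} {X Y : Set E} (h : Near δ X Y) : Near δ Y X :=
  ⟨fun y hy => (h.2 y hy).imp fun _ hx => ⟨hx.1, by rw [norm_sub_rev]; exact hx.2⟩,
    fun x hx => (h.1 x hx).imp fun _ hy => ⟨hy.1, by rw [norm_sub_rev]; exact hy.2⟩⟩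

theorem Near.trans {δ δ' : ℝ} {X Y Z : Set E} (h : Near δ X Y) (h' : Near δ' Y Z) :
    Near (δ + δ') X Z := by
  constructor
  · intro x hx
    obtain ⟨y, hy, h1⟩ := h.1 x hx
    obtain ⟨z, hz, h2⟩ := h'.1 y hy
    refine ⟨z, hz, ?_⟩
    have h3 : x - z = (x - y) + (y - z) := by abel
    rw [h3]
    exact (norm_add_le _ _).trans (add_le_add h1 h2)
  · intro z hz
    obtain ⟨y, hy, h1⟩ := h'.2 z hz
    obtain ⟨x, hx, h2⟩ := h.2 y hy
    refine ⟨x, hx, ?_⟩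
    have h3 : x - z = (x - y) + (y - z) := by abel
    rw [h3]
    exact (norm_add_le _ _).trans (add_le_add h2 h1)

theorem Near.add {δ δ' : ℝ} {X Y X' Y' : Set E} (h : Near δ X Y) (h' : Near δ' X' Y') :
    Near (δ + δ') (X + X') (Y + Y') := by
  constructor
  · rintro _ ⟨x, hx, x', hx', rfl⟩
    obtain ⟨y, hy, h1⟩ := h.1 x hx
    obtain ⟨y', hy', h2⟩ := h'.1 x' hx'
    refine ⟨y + y', Set.add_mem_add hy hy', ?_⟩
    have h3 : x + x' - (y + y') = (x - y) + (x' - y') := by abel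
    show ‖x + x' - (y + y')‖ ≤ _
    rw [h3]
    exact (norm_add_le _ _).trans (add_le_add h1 h2)
  · rintro _ ⟨y, hy, y', hy', rfl⟩
    obtain ⟨x, hx, h1⟩ := h.2 y hy
    obtain ⟨x', hx', h2⟩ := h'.2 y' hy'
    refine ⟨x + x', Set.add_mem_add hx hx', ?_⟩
    have h3 : x + x' - (y + y') = (x - y) + (x' - y') := by abel
    show ‖x + x' - (y + y')‖ ≤ _
    rw [h3]
    exact (norm_add_le _ _).trans (add_le_add h1 h2)

theorem Near.refl {δ : ℝ} (hδ : 0 ≤ δ) (X : Set E) : Near δ X X :=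
  ⟨fun x hx => ⟨x, hx, by simpa using hδ⟩, fun x hx => ⟨x, hx, by simpa using hδ⟩⟩

theorem Near.sum {ι : Type*} (s : Finset ι) (δ : ι → ℝ) (X Y : ι → Set E)
    (h : ∀ i ∈ s, Near (δ i) (X i) (Y i)) :
    Near (∑ i ∈ s, δ i) (∑ i ∈ s, X i) (∑ i ∈ s, Y i) := by
  classical
  induction s using Finset.induction with
  | empty => simpa using Near.refl (E := E) le_rfl 0
  | insert a s ha ih =>
    rw [Finset.sum_insert ha, Finset.sum_insert ha, Finset.sum_insert ha]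
    exact (h a (Finset.mem_insert_self _ _)).add
      (ih fun i hi => h i (Finset.mem_insert_of_mem hi))

theorem Near.image {δ : ℝ} {X Y : Set E} (h : Near δ X Y) (π : E →L[ℝ] F) :
    Near (‖π‖ * δ) (π '' X) (π '' Y) := by
  constructor
  · rintro _ ⟨x, hx, rfl⟩
    obtain ⟨y, hy, h1⟩ := h.1 x hx
    refine ⟨π y, ⟨y, hy, rfl⟩, ?_⟩
    rw [← map_sub]
    exact (π.le_opNorm _).trans (mul_le_mul_of_nonneg_left h1 (norm_nonneg _))
  · rintro _ ⟨y, hy, rfl⟩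
    obtain ⟨x, hx, h1⟩ := h.2 y hy
    refine ⟨π x, ⟨x, hx, rfl⟩, ?_⟩
    rw [← map_sub]
    exact (π.le_opNorm _).trans (mul_le_mul_of_nonneg_left h1 (norm_nonneg _))

theorem near_of_hausdorffDist {δ : ℝ} {X Y : Set E} (hX : IsCompact X) (hY : IsCompact Y)
    (hXn : X.Nonempty) (hYn : Y.Nonempty) (h : Metric.hausdorffDist X Y < δ) : Near δ X Y := by
  have hfin := Metric.hausdorffEDist_ne_top_of_nonempty_of_bounded hXn hYn hX.isBounded
    hY.isBounded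
  constructor
  · intro x hx
    obtain ⟨y, hy, h1⟩ := Metric.exists_dist_lt_of_hausdorffDist_lt hx h hfin
    exact ⟨y, hy, by rw [← dist_eq_norm]; exact h1.le⟩
  · intro y hy
    obtain ⟨x, hx, h1⟩ := Metric.exists_dist_lt_of_hausdorffDist_lt' hy h hfin
    exact ⟨x, hx, by rw [← dist_eq_norm]; exact h1.le⟩

theorem hausdorffDist_of_near {δ : ℝ} (hδ : 0 ≤ δ) {X Y : Set E} (h : Near δ X Y) :
    Metric.hausdorffDist X Y ≤ δ := by
  refine Metric.hausdorffDist_le_of_mem_dist hδ ?_ ?_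
  · intro x hx
    obtain ⟨y, hy, h1⟩ := h.1 x hx
    exact ⟨y, hy, by rw [dist_eq_norm]; exact h1⟩
  · intro y hy
    obtain ⟨x, hx, h1⟩ := h.2 y hy
    exact ⟨x, hx, by rw [dist_eq_norm, norm_sub_rev]; exact h1⟩

theorem near_of_dist {S T : NonemptyCompacts E} {δ : ℝ} (h : dist S T < δ) :
    Near δ (S : Set E) (T : Set E) :=
  near_of_hausdorffDist S.isCompact T.isCompact S.nonempty T.nonempty
    (by rwa [Metric.NonemptyCompacts.dist_eq] at h)

/-! ### Closed conditions -/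

theorem mem_of_near {T : Set E} (hT : IsClosed T) {x : E}
    (h : ∀ δ : ℝ, 0 < δ → ∃ y ∈ T, ‖x - y‖ ≤ δ) : x ∈ T := by
  rw [← hT.closure_eq, Metric.mem_closure_iff]
  intro ε hε
  obtain ⟨y, hy, h1⟩ := h (ε / 2) (by positivity)
  exact ⟨y, hy, by rw [dist_eq_norm]; linarith⟩

theorem convex_of_near {T : Set E} (hT : IsClosed T)
    (h : ∀ δ : ℝ, 0 < δ → ∃ S : Set E, Convex ℝ S ∧ Near δ S T) : Convex ℝ T := by
  intro x hx y hy p q hp hq hpq
  refine mem_of_near hT fun δ hδ => ?_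
  obtain ⟨S, hS, hST⟩ := h (δ / 2) (by positivity)
  obtain ⟨x', hx', h1⟩ := hST.2 x hx
  obtain ⟨y', hy', h2⟩ := hST.2 y hy
  obtain ⟨z, hz, h3⟩ := hST.1 _ (hS hx' hy' hp hq hpq)
  refine ⟨z, hz, ?_⟩
  have h4 : p • x + q • y - z = -(p • (x' - x) + q • (y' - y)) + (p • x' + q • y' - z) := by
    module
  rw [h4]
  refine (norm_add_le _ _).trans ?_
  rw [norm_neg]
  have h5 : ‖p • (x' - x) + q • (y' - y)‖ ≤ δ / 2 := by
    refine (norm_add_le _ _).trans ?_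
    rw [norm_smul, norm_smul, Real.norm_eq_abs, Real.norm_eq_abs, abs_of_nonneg hp,
      abs_of_nonneg hq]
    calc p * ‖x' - x‖ + q * ‖y' - y‖ ≤ p * (δ / 2) + q * (δ / 2) := by gcongr
      _ = δ / 2 := by rw [← add_mul, hpq, one_mul]
  linarith

theorem finrank_of_near [FiniteDimensional ℝ E] {T : Set E} {k : ℕ}
    (h : ∀ δ : ℝ, 0 < δ → ∃ S : Set E, Module.finrank ℝ (vectorSpan ℝ S) ≤ k ∧ Near δ S T) :
    Module.finrank ℝ (vectorSpan ℝ T) ≤ k := by
  by_contra hcon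
  push Not at hcon
  rcases T.eq_empty_or_nonempty with rfl | ⟨x₀, hx₀⟩
  · rw [vectorSpan_empty, finrank_bot] at hcon
    omega
  rw [vectorSpan_eq_span_vsub_set_right ℝ hx₀] at hcon
  obtain ⟨f, hf1, -, hf3⟩ := Submodule.exists_fun_fin_finrank_span_eq ℝ ((· -ᵥ x₀) '' T)
  set g : Fin (k + 1) → E := fun i => f (Fin.castLE hcon i) with hg
  have hgi : LinearIndependent ℝ g := hf3.comp _ (Fin.castLE_injective hcon)
  have hop : IsOpen {f : Fin (k + 1) → E | LinearIndependent ℝ f} :=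
    isOpen_setOfPred_linearIndependent
  obtain ⟨δ, hδ, hb⟩ := Metric.isOpen_iff.1 hop g hgi
  obtain ⟨S, hS, hST⟩ := h (δ / 4) (by positivity)
  obtain ⟨y₀, hy₀, h0⟩ := hST.2 x₀ hx₀
  have h1 : ∀ i : Fin (k + 1), ∃ y ∈ S, ‖(y - y₀) - g i‖ ≤ δ / 2 := by
    intro i
    obtain ⟨x, hx, hxg⟩ := hf1 (Fin.castLE hcon i)
    obtain ⟨y, hy, h2⟩ := hST.2 x hx
    refine ⟨y, hy, ?_⟩
    have h3 : y - y₀ - g i = (y - x) - (y₀ - x₀) := by
      have : g i = x - x₀ := by rw [hg]; exact hxg.symm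
      rw [this]; abel
    rw [h3]
    refine (norm_sub_le _ _).trans ?_
    linarith
  choose y hy hyg using h1
  have h2 : LinearIndependent ℝ (fun i => y i - y₀) := by
    refine hb ?_
    rw [Metric.mem_ball, dist_pi_lt_iff hδ]
    intro i
    rw [dist_eq_norm]
    exact lt_of_le_of_lt (hyg i) (by linarith)
  have h3 := finrank_span_eq_card h2
  have h4 : Submodule.span ℝ (Set.range fun i => y i - y₀) ≤ vectorSpan ℝ S := by
    rw [Submodule.span_le]
    rintro _ ⟨i, rfl⟩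
    exact vsub_mem_vectorSpan ℝ (hy i) hy₀
  have h5 := Submodule.finrank_mono h4
  rw [h3, Fintype.card_fin] at h5
  omega

/-- The normalised compact convex sets of a class `g`. -/
def TT (g : Set E → Prop) : Set (NonemptyCompacts E) :=
  {T | (T : Set E) ⊆ Metric.closedBall 0 1 ∧ Convex ℝ (T : Set E) ∧ g (T : Set E) ∧
    (0 : E) ∈ (T : Set E) ∧ ∃ x ∈ (T : Set E), ‖x‖ = 1}

/-- A class of sets is closed in the Hausdorff metric. -/
def ClosedCls (g : Set E → Prop) : Prop :=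
  ∀ T : Set E, IsCompact T → T.Nonempty → (∀ δ : ℝ, 0 < δ → ∃ S : Set E, Convex ℝ S ∧
    IsCompact S ∧ S.Nonempty ∧ g S ∧ Metric.hausdorffDist S T < δ) → g T

theorem TT_compact [FiniteDimensional ℝ E] {g : Set E → Prop} (hg : ClosedCls g) :
    IsCompact (TT g) := by
  have : ProperSpace E := FiniteDimensional.proper ℝ E
  have hc := NonemptyCompacts.isCompact_subsets_of_isCompact
    (isCompact_closedBall (0 : E) (1 : ℝ))
  refine hc.of_isClosed_subset ?_ (fun T hT => hT.1)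
  refine IsSeqClosed.isClosed ?_
  intro S T hS hlim
  have hn' : ∀ δ : ℝ, 0 < δ → ∃ i, dist (S i) T < δ := by
    intro δ hδ
    obtain ⟨N, hN⟩ := Metric.tendsto_atTop.1 hlim δ hδ
    exact ⟨N, hN N le_rfl⟩
  have hn : ∀ δ : ℝ, 0 < δ → ∃ i, Near δ (S i : Set E) (T : Set E) := by
    intro δ hδ
    obtain ⟨N, hN⟩ := hn' δ hδ
    exact ⟨N, near_of_dist hN⟩
  have hTc : IsClosed (T : Set E) := T.isCompact.isClosed
  refine ⟨?_, ?_, ?_, ?_, ?_⟩
  · intro x hx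
    rw [mem_closedBall_zero_iff]
    refine le_of_forall_pos_le_add fun δ hδ => ?_
    obtain ⟨i, hi⟩ := hn δ hδ
    obtain ⟨y, hy, h1⟩ := hi.2 x hx
    have h2 := (hS i).1 hy
    rw [mem_closedBall_zero_iff] at h2
    have h3 : x = y - (y - x) := by abel
    rw [h3]
    exact (norm_sub_le _ _).trans (add_le_add h2 h1)
  · refine convex_of_near hTc fun δ hδ => ?_
    obtain ⟨i, hi⟩ := hn δ hδ
    exact ⟨_, (hS i).2.1, hi⟩
  · refine hg T T.isCompact T.nonempty fun δ hδ => ?_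
    obtain ⟨i, hi⟩ := hn' δ hδ
    exact ⟨S i, (hS i).2.1, (S i).isCompact, (S i).nonempty, (hS i).2.2.1,
      by rwa [Metric.NonemptyCompacts.dist_eq] at hi⟩
  · refine mem_of_near hTc fun δ hδ => ?_
    obtain ⟨i, hi⟩ := hn δ hδ
    exact hi.1 0 (hS i).2.2.2.1
  · obtain ⟨x, hx, hx1⟩ := T.isCompact.exists_isMinOn T.nonempty
      (f := fun x : E => |‖x‖ - 1|) (by fun_prop)
    refine ⟨x, hx, ?_⟩
    have h1 : |‖x‖ - 1| ≤ 0 := by
      refine le_of_forall_pos_le_add fun δ hδ => ?_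
      obtain ⟨i, hi⟩ := hn δ hδ
      obtain ⟨y, hy, hy1⟩ := (hS i).2.2.2.2
      obtain ⟨z, hz, h2⟩ := hi.1 y hy
      have h3 : |‖x‖ - 1| ≤ |‖z‖ - 1| := hx1 hz
      have h4 : |‖z‖ - 1| ≤ ‖y - z‖ := by
        rw [← hy1, norm_sub_rev]
        exact abs_norm_sub_norm_le _ _
      linarith
    have := abs_nonpos_iff.1 h1
    linarith

end Pool.Agent.K3h48.AS
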