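import Pool.Agent.K3h48.AS.Extract2

set_option autoImplicit false
set_option linter.unusedSectionVars false

/-!
The covering numbers of convex bodies with approximate summands.
-/

open Set Topology TopologicalSpace Filter
open scoped Pointwise
open Pool.Agent.W677.Summand

namespace Pool.Agent.K3h48.AS

/-- the dimension -/
noncomputable def dm {n : ℕ} (A : Set (Eu n)) : ℕ := Module.finrank ℝ (vectorSpan ℝ A)

theorem body_image {n m : ℕ} {K : Set (Eu n)} (hK : Bdy K) (π : Eu n →L[ℝ] Eu m)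
    (hπ : Function.Surjective π) : Bdy (π '' K) := by
  obtain ⟨h1, h2, h3⟩ := hK
  refine ⟨h1.linear_image π.toLinearMap, h2.image π.continuous, ?_⟩
  have h4 : π '' (interior K) ⊆ interior (π '' K) :=
    interior_maximal (Set.image_mono interior_subset)
      (ContinuousLinearMap.isOpenMap _ hπ _ isOpen_interior)
  exact (h3.image π).mono h4

/-- `K` has decompositions one summand of which is similar to `T`, with arbitrary precision. -/
def ApproxSummand {n : ℕ} (T K : Set (Eu n)) : Prop :=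
  ∀ ε : ℝ, 0 < ε → ∃ μ : ℝ, 0 < μ ∧ ∃ A B : Set (Eu n), A.Nonempty ∧ IsCompact A ∧ K = A + B ∧
    Metric.hausdorffDist A (μ • T) ≤ ε * μ

theorem approx_bound {n m t : ℕ} {K T : Set (Eu n)} (hK : Bdy K) (hT : Convex ℝ T)
    (hTc : IsCompact T) {t₀ : Eu n} (ht₀ : t₀ ∈ T) (happ : ApproxSummand T K)
    (ι : Eu t →ₗᵢ[ℝ] Eu n) (hι : ∀ x, x ∈ vectorSpan ℝ T ↔ ∃ u, ι u = x)
    (π : Eu n →L[ℝ] Eu m) (hπ : Function.Surjective π) (hker : ∀ y, π y = 0 → y ∈ vectorSpan ℝ T)
    (N M : ℕ) (hN : Cov (Lset ι T t₀) N) (hM : Cov (π '' K) M) : Cov K (N * M) := by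
  have hι' : ∀ x ∈ vectorSpan ℝ T, ∃ u, ι u = x := fun x hx => (hι x).1 hx
  refine bound hK.1 hK.2.1 hK.2.2 (Lset_convex (a₀ := t₀) hT) (Lset_compact hι' ht₀ hTc) ι ?_ π
    (Function.surjInv hπ) (Function.surjInv_eq hπ) (fun y hy => ?_) N M hN hM
  · intro ε hε
    obtain ⟨μ, hμ, A, B, hAn, hAc, hKAB, hd⟩ := happ (ε / 2) (by positivity)
    have h1 : Near (ε * μ) A (μ • T) :=
      near_of_hausdorffDist hAc (hTc.smul μ) hAn (Set.Nonempty.smul_set ⟨t₀, ht₀⟩)
        (lt_of_le_of_lt hd (by nlinarith [mul_pos hε hμ]))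
    -- translate
    refine ⟨μ, hμ, (fun a => a - μ • t₀) '' A, (fun b => μ • t₀ + b) '' B, ?_, ?_, ?_⟩
    · intro X
      rw [hKAB, Set.mem_add]
      constructor
      · rintro ⟨a, ha, b, hb, rfl⟩
        refine ⟨_, ⟨a, ha, rfl⟩, _, ⟨b, hb, rfl⟩, ?_⟩
        show a + b = (a - μ • t₀) + (μ • t₀ + b)
        abel
      · rintro ⟨_, ⟨a, ha, rfl⟩, _, ⟨b, hb, rfl⟩, rfl⟩
        refine ⟨a, ha, b, hb, ?_⟩
        show a + b = (a - μ • t₀) + (μ • t₀ + b)
        abel
    · rintro _ ⟨a, ha, rfl⟩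
      obtain ⟨_, ⟨x, hx, rfl⟩, h2⟩ := h1.1 a ha
      rw [← phi_image hι' ht₀] at hx
      obtain ⟨u, hu, rfl⟩ := hx
      refine ⟨u, hu, ?_⟩
      have h3 : a - μ • t₀ - μ • ι u = a - μ • (phi ι t₀ u) := by
        rw [phi_apply, smul_add]; abel
      show ‖a - μ • t₀ - μ • ι u‖ ≤ _
      rw [h3]
      exact h2
    · intro u hu
      obtain ⟨a, ha, h2⟩ := h1.2 _ (Set.smul_mem_smul_set (a := μ) (show phi ι t₀ u ∈ T from hu))
      refine ⟨_, ⟨a, ha, rfl⟩, ?_⟩
      have h3 : a - μ • t₀ - μ • ι u = a - μ • (phi ι t₀ u) := by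
        rw [phi_apply, smul_add]; abel
      show ‖a - μ • t₀ - μ • ι u‖ ≤ _
      rw [h3]
      exact h2
  · obtain ⟨u, hu⟩ := hι' y (hker y hy)
    exact ⟨u, hu.symm⟩

/-- A class of sets, in all dimensions, which is invariant under affine maps. -/
def AffCls (G : ∀ n : ℕ, Set (Eu n) → Prop) : Prop :=
  ∀ (n m : ℕ) (f : Eu n →ᵃ[ℝ] Eu m) (T : Set (Eu n)), G n T → G m (f '' T)

theorem AffCls.hom {G : ∀ n : ℕ, Set (Eu n) → Prop} (hG : AffCls G) (n : ℕ) :
    HomCls (G n) := by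
  intro T t r hT
  have h := hG n n ((r • LinearMap.id : Eu n →ₗ[ℝ] Eu n).toAffineMap.comp
    (AffineMap.id ℝ (Eu n) - AffineMap.const ℝ (Eu n) t)) T hT
  exact h

theorem AffCls.lin {G : ∀ n : ℕ, Set (Eu n) → Prop} (hG : AffCls G) {n m : ℕ}
    (π : Eu n →L[ℝ] Eu m) {T : Set (Eu n)} (hT : G n T) : G m (π '' T) :=
  hG n m π.toLinearMap.toAffineMap T hT

theorem image_finset_sum {n m : ℕ} (π : Eu n →L[ℝ] Eu m) {ι : Type*} (s : Finset ι)
    (T : ι → Set (Eu n)) : π '' (∑ i ∈ s, T i) = ∑ i ∈ s, π '' (T i) := by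
  classical
  induction s using Finset.induction with
  | empty =>
    rw [Finset.sum_empty, Finset.sum_empty]
    show π '' {0} = {0}
    rw [Set.image_singleton, map_zero]
  | insert a s ha ih =>
    rw [Finset.sum_insert ha, Finset.sum_insert ha, Set.image_add, ih]

theorem vectorSpan_img {n m : ℕ} (π : Eu n →L[ℝ] Eu m) (A : Set (Eu n)) :
    vectorSpan ℝ (π '' A) = (vectorSpan ℝ A).map π.toLinearMap := by
  have h := π.toLinearMap.toAffineMap.map_vectorSpan (s := A)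
  exact h.symm

theorem limit_image {G : ∀ n : ℕ, Set (Eu n) → Prop} (hG : AffCls G) {n m : ℕ}
    (π : Eu n →L[ℝ] Eu m) {A : Set (Eu n)} (hA : IsCompact A)
    (hAn : A.Nonempty) (h : IsLimitOfSums (G n) A) : IsLimitOfSums (G m) (π '' A) := by
  intro ε hε
  obtain ⟨P, ⟨r, T, hT, rfl⟩, hd⟩ := h (ε / (2 * (‖π‖ + 1))) (by positivity)
  refine ⟨π '' (∑ i, T i), ⟨r, fun i => π '' (T i), fun i => ?_, image_finset_sum π _ T⟩, ?_⟩
  · obtain ⟨h1, h2, h3, h4⟩ := hT i
    exact ⟨h1.linear_image π.toLinearMap, h2.image π.continuous, h3.image _, hG.lin π h4⟩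
  · have h1 := sum_good Finset.univ T (fun i _ => ⟨(hT i).1, (hT i).2.1, (hT i).2.2.1⟩)
    have h2 := near_of_hausdorffDist hA h1.2.1 hAn h1.2.2 hd
    have h3 := hausdorffDist_of_near (by positivity) (h2.image π)
    refine lt_of_le_of_lt h3 ?_
    have h4 : ‖π‖ * (ε / (2 * (‖π‖ + 1))) = (‖π‖ / (‖π‖ + 1)) * (ε / 2) := by
      field_simp
    rw [h4]
    have h5 : ‖π‖ / (‖π‖ + 1) ≤ 1 := by
      rw [div_le_one (by positivity)]
      linarith
    nlinarith

theorem dim_image {n m : ℕ} (π : Eu n →L[ℝ] Eu m) {A T : Set (Eu n)}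
    (hker : ∀ y, π y = 0 → y ∈ vectorSpan ℝ T) : dm A ≤ dm (π '' A) + dm T := by
  unfold dm
  rw [vectorSpan_img]
  have h1 := (π.toLinearMap.domRestrict (vectorSpan ℝ A)).finrank_range_add_finrank_ker
  have h2 : LinearMap.range (π.toLinearMap.domRestrict (vectorSpan ℝ A)) =
      (vectorSpan ℝ A).map π.toLinearMap := LinearMap.range_domRestrict _ _
  rw [h2] at h1
  have h3 : Module.finrank ℝ (LinearMap.ker (π.toLinearMap.domRestrict (vectorSpan ℝ A))) ≤
      Module.finrank ℝ (vectorSpan ℝ T) := by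
    let f : LinearMap.ker (π.toLinearMap.domRestrict (vectorSpan ℝ A)) →ₗ[ℝ] vectorSpan ℝ T :=
      { toFun := fun x => ⟨(x : vectorSpan ℝ A), hker _ (by
          have := x.2
          rw [LinearMap.mem_ker] at this
          exact this)⟩
        map_add' := fun x y => rfl
        map_smul' := fun c x => rfl }
    refine LinearMap.finrank_le_finrank_of_injective (f := f) ?_
    intro x y hxy
    have h := congrArg (fun v : vectorSpan ℝ T => (v : Eu n)) hxy
    exact Subtype.ext (Subtype.ext h)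
  omega

/-- **The theorem**, for a class of sets closed under affine maps and limits. -/
theorem main {G : ∀ n : ℕ, Set (Eu n) → Prop} (hG : AffCls G) (hGc : ∀ n, ClosedCls (G n))
    (hcov : ∀ (t : ℕ) (L : Set (Eu t)), G t L → Bdy L → Cov L (2 ^ t)) {k : ℕ}
    (hconj : ∀ d ≤ k, ∀ K : Set (Eu d), Bdy K → Cov K (2 ^ d)) :
    ∀ (n : ℕ) (K A C : Set (Eu n)), Bdy K → Convex ℝ A → IsCompact A → K = A + C →
      IsLimitOfSums (G n) A → n ≤ dm A + k → Cov K (2 ^ n) := by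
  intro n
  induction n using Nat.strong_induction_on with
  | _ n ih =>
  intro K A C hK hA hAc hKAC hlim hdim
  rcases le_or_gt n k with hnk | hnk
  · exact hconj n hnk K hK
  have hAn : A.Nonempty := by
    obtain ⟨x, hx⟩ := hK.2.2
    have h1 := interior_subset hx
    rw [hKAC] at h1
    obtain ⟨a, ha, _⟩ := Set.mem_add.1 h1
    exact ⟨a, ha⟩
  have hnt : A.Nontrivial := by
    by_contra hcon
    rw [Set.not_nontrivial_iff] at hcon
    have h1 : dm A = 0 := by
      unfold dm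
      rw [vectorSpan_of_subsingleton ℝ hcon, finrank_bot]
    omega
  obtain ⟨x, hx, y, hy, hxy⟩ := hnt
  obtain ⟨T, hT, hdec⟩ := extract (hG.hom n) (hGc n) hAc hlim hx hy hxy
  obtain ⟨hT1, hT2, hT3, hT4, z, hz, hz1⟩ := hT
  -- the dimension of `T`
  have htpos : 1 ≤ dm (T : Set (Eu n)) := by
    by_contra hcon
    have h0 : dm (T : Set (Eu n)) = 0 := by omega
    have h1 : vectorSpan ℝ (T : Set (Eu n)) = ⊥ := Submodule.finrank_eq_zero.1 h0
    have h2 : z -ᵥ (0 : Eu n) ∈ vectorSpan ℝ (T : Set (Eu n)) := vsub_mem_vectorSpan ℝ hz hT4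
    rw [h1, Submodule.mem_bot, vsub_eq_sub, sub_zero] at h2
    rw [h2, norm_zero] at hz1
    exact zero_ne_one hz1
  have htn : dm (T : Set (Eu n)) ≤ n := by
    have := Submodule.finrank_le (vectorSpan ℝ (T : Set (Eu n)))
    rwa [finrank_euclideanSpace, Fintype.card_fin] at this
  obtain ⟨m, hm⟩ : ∃ m, dm (T : Set (Eu n)) + m = n := ⟨n - dm (T : Set (Eu n)), by omega⟩
  obtain ⟨ι, hι⟩ := coords (vectorSpan ℝ (T : Set (Eu n))) (k := dm (T : Set (Eu n))) rfl
  obtain ⟨π, hπ, hker⟩ := quot (vectorSpan ℝ (T : Set (Eu n))) (m := m) hm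
  have hL : Bdy (Lset ι (T : Set (Eu n)) 0) :=
    ⟨Lset_convex hT2, Lset_compact (fun x hx => (hι x).1 hx) hT4 T.isCompact,
      Lset_int hι hT4 hT2⟩
  have hLG : G _ (Lset ι (T : Set (Eu n)) 0) := by
    obtain ⟨q, hq⟩ := LinearMap.exists_leftInverse_of_injective ι.toLinearMap
      (LinearMap.ker_eq_bot.2 ι.injective)
    have hq' : ∀ u, q (ι u) = u := fun u => LinearMap.congr_fun hq u
    have h1 : Lset ι (T : Set (Eu n)) 0 = q.toAffineMap '' (T : Set (Eu n)) := by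
      ext u
      constructor
      · intro hu
        refine ⟨ι u, ?_, hq' u⟩
        have : (0 : Eu n) + ι u ∈ (T : Set (Eu n)) := hu
        rwa [zero_add] at this
      · rintro ⟨x, hx, rfl⟩
        have h2 : x -ᵥ (0 : Eu n) ∈ vectorSpan ℝ (T : Set (Eu n)) :=
          vsub_mem_vectorSpan ℝ hx hT4
        rw [vsub_eq_sub, sub_zero] at h2
        obtain ⟨u, rfl⟩ := (hι x).1 h2
        show (0 : Eu n) + ι (q (ι u)) ∈ (T : Set (Eu n))
        rw [zero_add, hq']
        exact hx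
    rw [h1]
    exact hG _ _ _ _ hT3
  have h1 : Cov (Lset ι (T : Set (Eu n)) 0) (2 ^ dm (T : Set (Eu n))) := hcov _ _ hLG hL
  have h2 : Cov (π '' K) (2 ^ m) := by
    refine ih m (by omega) (π '' K) (π '' A) (π '' C) (body_image hK π hπ)
      (hA.linear_image π.toLinearMap) (hAc.image π.continuous) ?_ (limit_image hG π hAc hAn hlim) ?_
    · rw [hKAC, Set.image_add]
    · have := dim_image π (A := A) (T := (T : Set (Eu n))) (fun y hy => (hker y).1 hy)
      omega
  have h3 : ApproxSummand (T : Set (Eu n)) K := by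
    intro ε hε
    obtain ⟨μ, hμ, A₁, B₁, g1, g2, g3, g4, g5, g6, g7, g8⟩ := hdec ε hε
    refine ⟨μ, hμ, A₁, B₁ + C, g3, g2, ?_, hausdorffDist_of_near (by positivity) g8⟩
    rw [hKAC, g7, add_assoc]
  have h4 := approx_bound hK hT2 T.isCompact hT4 h3 ι hι π hπ (fun y hy => (hker y).1 hy) _ _
    h1 h2
  rwa [← pow_add, hm] at h4

end Pool.Agent.K3h48.AS
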